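import Mathlib

/-!
Definitions for the maximum oriented zero forcing number, and the elementary fact that the
final colouring is closed under the colour change rule.
-/

namespace Pool.Agent.H17.OZF

/-- `D` is an orientation of `G`: `D u v` means that `(u, v)` is an arc; every arc lies on an
edge, and for every edge exactly one of its two directions is an arc. -/
def IsOrientation {V : Type*} (G : SimpleGraph V) (D : V → V → Prop) : Prop :=
  (∀ u v, D u v → G.Adj u v) ∧
    ∀ u v, G.Adj u v → (D u v ∧ ¬ D v u) ∨ (D v u ∧ ¬ D u v)

/-- One round of the colour change rule: a vertex `v` becomes coloured if it is an out-neighbour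
of a coloured vertex `u` that has no non-coloured out-neighbour other than `v`. -/
def colourStep {V : Type*} (D : V → V → Prop) (C : Set V) : Set V :=
  C ∪ {v | ∃ u ∈ C, D u v ∧ ∀ w, D u w → w ∉ C → w = v}

/-- The vertices coloured at the end, when exactly those of `S` are coloured at the start and
the rule is applied again and again. -/
def finalColouring {V : Type*} (D : V → V → Prop) (S : Set V) : Set V :=
  ⋃ k : ℕ, (colourStep D)^[k] S

/-- `S` is a forcing set of `D`. -/
def IsForcingSet {V : Type*} (D : V → V → Prop) (S : Finset V) : Prop :=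
  S.Nonempty ∧ finalColouring D (S : Set V) = Set.univ

/-- `F(D)`: the minimum size of a forcing set. -/
noncomputable def forcingNumber {V : Type*} (D : V → V → Prop) : ℕ :=
  sInf {k | ∃ S : Finset V, IsForcingSet D S ∧ S.card = k}

/-- `MOF(G)`: the maximum of `F(D)` over the orientations `D` of `G`. -/
noncomputable def MOF {V : Type*} (G : SimpleGraph V) : ℕ :=
  sSup {k | ∃ D : V → V → Prop, IsOrientation G D ∧ forcingNumber D = k}

section

variable {V : Type*} (D : V → V → Prop)

theorem subset_colourStep (C : Set V) : C ⊆ colourStep D C := fun _ h => Or.inl h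

theorem iterate_mono (S : Set V) {i j : ℕ} (h : i ≤ j) :
    (colourStep D)^[i] S ⊆ (colourStep D)^[j] S := by
  induction j, h using Nat.le_induction with
  | base => exact subset_rfl
  | succ n _ ih =>
    rw [Function.iterate_succ_apply']
    exact ih.trans (subset_colourStep D _)

theorem subset_final (S : Set V) : S ⊆ finalColouring D S := by
  intro v hv
  exact Set.mem_iUnion.2 ⟨0, hv⟩

theorem exists_stage [Finite V] (S : Set V) : ∃ K, finalColouring D S ⊆ (colourStep D)^[K] S := by
  classical
  have hfin : (finalColouring D S).Finite := Set.toFinite _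
  have key : ∀ T : Set V, T.Finite → T ⊆ finalColouring D S →
      ∃ K, T ⊆ (colourStep D)^[K] S := by
    intro T hT
    induction T, hT using Set.Finite.induction_on with
    | empty => intro _; exact ⟨0, Set.empty_subset _⟩
    | insert _ _ ih =>
      intro hsub
      obtain ⟨K, hK⟩ := ih (fun x hx => hsub (Set.mem_insert_of_mem _ hx))
      obtain ⟨L, hL⟩ := Set.mem_iUnion.1 (hsub (Set.mem_insert _ _))
      refine ⟨max K L, ?_⟩
      intro x hx
      rcases Set.mem_insert_iff.1 hx with rfl | hx
      · exact iterate_mono D S (le_max_right K L) hL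
      · exact iterate_mono D S (le_max_left K L) (hK hx)
  exact key _ hfin subset_rfl

theorem final_closed [Finite V] (S : Set V) (u v : V) (hu : u ∈ finalColouring D S)
    (huv : D u v) (h : ∀ w, D u w → w ≠ v → w ∈ finalColouring D S) :
    v ∈ finalColouring D S := by
  obtain ⟨K, hK⟩ := exists_stage D S
  refine Set.mem_iUnion.2 ⟨K + 1, ?_⟩
  rw [Function.iterate_succ_apply']
  refine Or.inr ⟨u, hK hu, huv, ?_⟩
  intro w hw hwn
  by_contra hne
  exact hwn (hK (h w hw hne))

theorem forcingNumber_le [Finite V] (S : Finset V) (hS : S.Nonempty)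
    (h : ∀ v, v ∈ finalColouring D (S : Set V)) (k : ℕ) (hk : S.card ≤ k) :
    forcingNumber D ≤ k := by
  have h1 : S.card ∈ {k | ∃ S : Finset V, IsForcingSet D S ∧ S.card = k} :=
    ⟨S, ⟨hS, Set.eq_univ_of_forall h⟩, rfl⟩
  exact (Nat.sInf_le h1).trans hk

end

end Pool.Agent.H17.OZF
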