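import Pool.Agent.H17.OZF.Glue

/-!
Connected graphs of order `23 * r`: `r` copies of the graph on 23 vertices, the copy number `0`
being joined to each other copy by one edge.
-/

namespace Pool.Agent.H17.OZF

/-- `r` copies of the graph on 23 vertices, joined in a star. -/
def starG (r : ℕ) : SimpleGraph (Fin r × Fin 23) where
  Adj p q := (p.1 = q.1 ∧ G23.Adj p.2 q.2) ∨
    (p.2 = 0 ∧ q.2 = 0 ∧ p.1 ≠ q.1 ∧ (p.1.val = 0 ∨ q.1.val = 0))
  symm := by
    refine ⟨fun p q h => ?_⟩
    rcases h with ⟨h1, h2⟩ | ⟨h1, h2, h3, h4⟩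
    · exact Or.inl ⟨h1.symm, h2.symm⟩
    · exact Or.inr ⟨h2, h1, h3.symm, h4.symm⟩
  loopless := by
    refine ⟨fun p h => ?_⟩
    rcases h with ⟨-, h2⟩ | ⟨-, -, h3, -⟩
    · exact G23.loopless.irrefl _ h2
    · exact h3 rfl

theorem starG_out {r : ℕ} {i : Fin r} {x : Fin 23} {q : Fin r × Fin 23}
    (h : (starG r).Adj (i, x) q) (hne : q.1 ≠ i) :
    x = 0 ∧ q.2 = 0 ∧ (i.val = 0 ∨ q.1.val = 0) := by
  rcases h with ⟨h1, -⟩ | ⟨h1, h2, -, h4⟩
  · exact absurd h1.symm hne
  · exact ⟨h1, h2, h4⟩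

theorem starG_connected (r : ℕ) (hr : 1 ≤ r) : (starG r).Connected := by
  have hz : ∀ p : Fin r × Fin 23, (starG r).Reachable p (⟨0, hr⟩, 0) := by
    rintro ⟨i, x⟩
    have h1 : (starG r).Reachable (i, x) (i, 0) := by
      let f : G23 →g starG r := ⟨fun x => (i, x), fun {a b} h => Or.inl ⟨rfl, h⟩⟩
      exact (G23_connected.preconnected x 0).map f
    by_cases hi : i = ⟨0, hr⟩
    · rw [hi] at h1
      rw [hi]
      exact h1
    · have h2 : (starG r).Adj (i, 0) (⟨0, hr⟩, 0) := Or.inr ⟨rfl, rfl, hi, Or.inr rfl⟩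
      exact h1.trans h2.reachable
  have : Nonempty (Fin r × Fin 23) := ⟨(⟨0, hr⟩, 0)⟩
  exact ⟨fun x y => (hz x).trans (hz y).symm⟩

theorem copy_ori {r : ℕ} {D : Fin r × Fin 23 → Fin r × Fin 23 → Prop}
    (hD : IsOrientation (starG r) D) (i : Fin r) :
    IsOrientation G23 (fun x y => D (i, x) (i, y)) := by
  refine ⟨fun x y h => ?_, fun x y h => hD.2 _ _ (Or.inl ⟨rfl, h⟩)⟩
  rcases hD.1 _ _ h with ⟨-, h2⟩ | ⟨-, -, h3, -⟩
  · exact h2
  · exact absurd rfl h3

/-- If all out-neighbours outside a copy are coloured, the copy gets coloured. -/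
theorem copy_coloured {r : ℕ} {D : Fin r × Fin 23 → Fin r × Fin 23 → Prop}
    {Col : Set (Fin r × Fin 23)}
    (hcl : ∀ u v, u ∈ Col → D u v → (∀ w, D u w → w ≠ v → w ∈ Col) → v ∈ Col)
    (i : Fin r) (S : Finset (Fin 23)) (hS : ∀ x ∈ S, (i, x) ∈ Col)
    (hfull : ∀ x, x ∈ finalColouring (fun x y => D (i, x) (i, y)) (S : Set (Fin 23)))
    (hout : ∀ x w, D (i, x) w → w.1 ≠ i → w ∈ Col) : ∀ x, (i, x) ∈ Col := by
  have key : ∀ k : ℕ, ∀ x ∈ (colourStep (fun x y => D (i, x) (i, y)))^[k] (S : Set (Fin 23)),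
      (i, x) ∈ Col := by
    intro k
    induction k with
    | zero => exact fun x hx => hS x hx
    | succ n ih =>
      intro x hx
      rw [Function.iterate_succ_apply'] at hx
      rcases hx with hx | ⟨u, hu, hux, hw⟩
      · exact ih x hx
      · refine hcl (i, u) (i, x) (ih u hu) hux ?_
        rintro ⟨j, w⟩ hjw hne
        by_cases hj : j = i
        · subst hj
          by_contra hnc
          have h1 : w = x := by
            refine hw w hjw ?_
            intro hmem
            exact hnc (ih w hmem)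
          exact hne (by rw [h1])
        · exact hout u (j, w) hjw hj
  intro x
  obtain ⟨k, hk⟩ := Set.mem_iUnion.1 (hfull x)
  exact key k x hk

theorem star_forcingNumber_le (r : ℕ) (hr : 1 ≤ r)
    (D : Fin r × Fin 23 → Fin r × Fin 23 → Prop) (hD : IsOrientation (starG r) D) :
    forcingNumber D ≤ 11 * r := by
  classical
  choose S hcard hfull using fun i => exists_set _ (copy_ori hD i)
  let T : Finset (Fin r × Fin 23) := Finset.univ.biUnion fun i => (S i).image fun x => (i, x)
  have hTcard : T.card ≤ 11 * r := by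
    refine (Finset.card_biUnion_le).trans ?_
    refine (Finset.sum_le_sum (g := fun _ => 11) fun i _ =>
      Finset.card_image_le.trans (hcard i)).trans ?_
    simp [mul_comm]
  have hmem : ∀ i, ∀ x ∈ S i, (i, x) ∈ T := by
    intro i x hx
    exact Finset.mem_biUnion.2 ⟨i, Finset.mem_univ _, Finset.mem_image.2 ⟨x, hx, rfl⟩⟩
  have hcl := final_closed D (T : Set (Fin r × Fin 23))
  have hsub := subset_final D (T : Set (Fin r × Fin 23))
  let z : Fin r := ⟨0, hr⟩
  -- first the copies to which the central copy points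
  have s1 : ∀ i, i ≠ z → D (z, 0) (i, 0) →
      ∀ x, (i, x) ∈ finalColouring D (T : Set (Fin r × Fin 23)) := by
    intro i hi harc
    refine copy_coloured hcl i (S i) (fun x hx => hsub (hmem i x hx)) (hfull i) ?_
    rintro x ⟨j, y⟩ hxy hne
    obtain ⟨rfl, h2, h3⟩ := starG_out (hD.1 _ _ hxy) hne
    have h2' : y = 0 := h2
    subst h2'
    have hj : j = z := by
      rcases h3 with h3 | h3
      · exact absurd (Fin.ext h3) hi
      · exact Fin.ext h3
    subst hj
    rcases hD.2 _ _ (hD.1 _ _ harc) with h | h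
    · exact absurd hxy h.2
    · exact absurd harc h.2
  -- then the central copy
  have s2 : ∀ x, (z, x) ∈ finalColouring D (T : Set (Fin r × Fin 23)) := by
    refine copy_coloured hcl z (S z) (fun x hx => hsub (hmem z x hx)) (hfull z) ?_
    rintro x ⟨j, y⟩ hxy hne
    obtain ⟨rfl, h2, -⟩ := starG_out (hD.1 _ _ hxy) hne
    have h2' : y = 0 := h2
    subst h2'
    exact s1 j hne hxy 0
  -- then the remaining copies
  have s3 : ∀ i x, (i, x) ∈ finalColouring D (T : Set (Fin r × Fin 23)) := by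
    intro i
    by_cases hi : i = z
    · rw [hi]; exact s2
    · refine copy_coloured hcl i (S i) (fun x hx => hsub (hmem i x hx)) (hfull i) ?_
      rintro x ⟨j, y⟩ hxy hne
      obtain ⟨-, -, h3⟩ := starG_out (hD.1 _ _ hxy) hne
      have hj : j = z := by
        rcases h3 with h3 | h3
        · exact absurd (Fin.ext h3) hi
        · exact Fin.ext h3
      subst hj
      exact s2 y
  refine forcingNumber_le D T ?_ (fun v => s3 v.1 v.2) (11 * r) hTcard
  rw [Finset.nonempty_iff_ne_empty]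
  intro hT
  have h0 := s2 0
  rw [hT, Finset.coe_empty, final_empty] at h0
  exact h0

theorem star_MOF_le (r : ℕ) (hr : 1 ≤ r) : MOF (starG r) ≤ 11 * r := by
  refine csSup_le' ?_
  rintro k ⟨D, hD, rfl⟩
  exact star_forcingNumber_le r hr D hD

end Pool.Agent.H17.OZF
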