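import Pool.Agent.H17.OZF.Half

/-!
Certificates: decision trees over the edges of the half graph.
-/

namespace Pool.Agent.H17.OZF

set_option maxRecDepth 100000

def treeA : Tr :=
(.n 2 9
(.n 4 7
(.n 1 6
(.n 5 10
(.n 0 3
(.n 10 11
(.l 0 [0,1,2,4,5] [] [(0,3),(1,6),(2,9),(4,7),(5,10),(10,11)])
(.n 7 8
(.l 2 [0,1,2,4,5,11] [(0,3),(1,6),(2,9),(4,7),(5,10),(7,8)] [])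
(.n 4 5
(.l 0 [0,1,2,4,11] [] [(0,3),(1,6),(2,9),(8,7),(4,5),(5,10)])
(.l 2 [0,1,2,5,8,11] [(0,3),(1,6),(2,9)] [(11,10),(5,4),(4,7)]))))
(.n 6 8
(.l 2 [1,2,3,4,5,11] [(3,0),(1,6),(2,9),(4,7),(5,10),(6,8)] [])
(.n 9 11
(.l 0 [1,2,3,4,5] [] [(3,0),(1,6),(2,9),(4,7),(5,10),(9,11)])
(.n 1 2
(.l 0 [1,3,4,5,11] [] [(3,0),(4,7),(5,10),(8,6),(1,2),(2,9)])
(.l 2 [2,3,4,5,8,11] [(3,0),(4,7),(5,10)] [(11,9),(2,1),(1,6)])))))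
(.n 0 3
(.n 7 8
(.l 2 [0,1,2,4,10,11] [(0,3),(1,6),(2,9),(10,5),(4,7),(7,8)] [])
(.n 9 11
(.l 0 [0,1,2,4,10] [] [(0,3),(1,6),(2,9),(8,7),(9,11),(10,5)])
(.n 10 11
(.n 4 5
(.l 0 [0,1,2,4,10] [] [(0,3),(1,6),(2,9),(8,7),(4,5),(10,11)])
(.l 0 [0,1,2,5,10] [] [(0,3),(1,6),(2,9),(5,4),(4,7),(10,11)]))
(.l 2 [0,1,2,4,8,11] [(0,3),(1,6),(2,9)] [(11,10),(10,5),(4,7)]))))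
(.n 9 11
(.n 6 8
(.l 2 [0,1,2,3,4,10] [(1,6),(2,9),(9,11),(10,5),(4,7),(6,8)] [])
(.n 1 2
(.l 0 [1,3,4,5,10] [] [(3,0),(4,7),(8,6),(1,2),(2,9),(9,11)])
(.l 0 [2,3,4,9,10] [] [(9,11),(10,5),(3,0),(2,1),(1,6),(4,7)])))
(.n 0 2
(.l 2 [1,3,4,8,10,11] [] [(11,9),(10,5),(3,0),(0,2),(1,6),(4,7)])
(.n 1 2
(.n 6 7
(.n 3 4
(.l 2 [1,2,3,8,10,11] [] [(11,9),(2,0),(1,6),(6,7),(10,5),(3,4)])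
(.l 2 [1,2,4,8,10,11] [] [(11,9),(2,0),(1,6),(6,7),(10,5),(4,3)]))
(.l 2 [1,3,4,8,10,11] [] [(11,9),(10,5),(3,0),(4,7),(7,6),(1,2)]))
(.l 2 [2,3,4,8,10,11] [] [(11,9),(10,5),(3,0),(2,1),(1,6),(4,7)]))))))
(.n 10 11
(.n 3 5
(.n 6 8
(.n 0 1
(.l 2 [0,2,3,4,6,10] [(0,1),(2,9),(3,5),(4,7),(6,8),(10,11)] [])
(.l 2 [1,2,3,4,6,10] [(1,0),(2,9),(3,5),(4,7),(6,8),(10,11)] []))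
(.l 0 [0,2,3,4,10] [] [(3,5),(4,7),(8,6),(6,1),(2,9),(10,11)]))
(.n 6 8
(.n 0 1
(.l 2 [0,2,4,5,6,10] [(5,3),(0,1),(2,9),(4,7),(6,8),(10,11)] [])
(.l 0 [2,4,5,6,10] [] [(5,3),(4,7),(6,1),(1,0),(2,9),(10,11)]))
(.l 0 [0,2,4,5,10] [] [(5,3),(4,7),(8,6),(6,1),(2,9),(10,11)])))
(.n 0 3
(.n 4 5
(.n 7 8
(.l 2 [0,2,4,6,7,11] [(7,8),(6,1),(0,3),(2,9),(4,5)] [(11,10)])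
(.n 5 10
(.l 0 [0,2,4,6,11] [] [(8,7),(6,1),(0,3),(2,9),(4,5),(5,10)])
(.n 3 4
(.l 0 [0,2,6,10,11] [] [(8,7),(6,1),(0,3),(2,9),(10,5),(3,4)])
(.n 9 10
(.l 0 [0,2,4,6,11] [] [(8,7),(6,1),(0,3),(2,9),(4,5),(9,10)])
(.n 6 7
(.n 1 2
(.l 0 [0,4,6,10,11] [] [(8,7),(6,1),(1,2),(0,3),(2,9),(4,5)])
(.n 0 1
(.n 9 11
(.l 0 [0,2,4,6,10] [] [(8,7),(6,1),(0,3),(2,9),(4,5),(9,11)])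
(.n 3 5
(.n 6 8
(.l 2 [0,1,2,4,6,11] [(0,3),(2,9),(3,5),(4,7),(6,8)] [(11,10)])
(.n 0 2
(.l 0 [0,3,4,10,11] [] [(3,5),(4,7),(8,6),(6,1),(0,2),(2,9)])
(.l 0 [2,3,4,10,11] [] [(3,5),(4,7),(8,6),(6,1),(10,9),(2,0)])))
(.n 0 2
(.l 2 [0,4,5,6,8,11] [(5,3),(4,7),(6,1),(0,2),(2,9)] [(11,10)])
(.l 2 [2,4,6,8,9,11] [] [(11,10),(10,5),(5,3),(4,7),(6,1),(2,0)]))))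
(.l 0 [2,4,6,10,11] [] [(8,7),(6,1),(1,0),(0,3),(2,9),(4,5)])))
(.l 2 [0,1,2,4,8,11] [(0,3),(2,9)] [(11,10),(10,5),(4,7),(7,6)]))))))
(.n 7 8
(.l 2 [0,2,5,6,7,11] [(7,8),(6,1),(0,3),(2,9)] [(11,10),(5,4)])
(.n 5 10
(.n 9 10
(.l 0 [0,2,5,6,11] [] [(8,7),(6,1),(0,3),(2,9),(9,10),(5,4)])
(.n 1 2
(.l 0 [0,4,5,6,11] [] [(8,7),(6,1),(1,2),(0,3),(2,9),(5,10)])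
(.n 6 8
(.l 2 [0,2,5,6,10,11] [(10,9),(2,1),(0,3),(5,4),(4,7),(6,8)] [])
(.l 0 [0,2,5,10,11] [] [(10,9),(2,1),(0,3),(5,4),(4,7),(8,6)]))))
(.l 0 [0,2,6,10,11] [] [(8,7),(6,1),(0,3),(2,9),(10,5),(5,4)]))))
(.n 7 8
(.l 2 [2,3,4,5,6,11] [(3,0),(4,7),(7,8),(6,1),(2,9)] [(11,10)])
(.n 4 5
(.n 9 10
(.l 0 [2,3,4,6,11] [] [(8,7),(4,5),(3,0),(6,1),(2,9),(9,10)])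
(.n 5 10
(.l 0 [2,3,4,6,11] [] [(8,7),(4,5),(3,0),(5,10),(6,1),(2,9)])
(.n 1 2
(.l 0 [3,4,6,10,11] [] [(8,7),(4,5),(3,0),(6,1),(1,2),(2,9)])
(.n 9 11
(.l 0 [2,3,4,6,10] [] [(8,7),(4,5),(3,0),(6,1),(2,9),(9,11)])
(.n 0 2
(.l 0 [3,4,6,10,11] [] [(8,7),(4,5),(3,0),(6,1),(0,2),(2,9)])
(.n 6 7
(.n 3 5
(.n 0 1
(.n 3 4
(.l 2 [0,2,3,6,8,11] [(0,1),(2,9),(6,7)] [(11,10),(10,5),(3,4)])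
(.l 2 [0,2,4,6,8,11] [(0,1),(2,9),(6,7)] [(11,10),(10,5),(4,3)]))
(.n 3 4
(.l 0 [2,3,6,10,11] [] [(8,7),(6,1),(1,0),(2,9),(10,5),(3,4)])
(.l 0 [2,4,6,10,11] [] [(8,7),(6,1),(1,0),(2,9),(10,5),(4,3)])))
(.l 2 [2,4,5,6,8,11] [(5,3),(3,0),(4,7),(6,1),(2,9)] [(11,10)]))
(.l 2 [2,3,4,5,8,11] [(3,0),(4,7),(7,6),(6,1),(2,9)] [(11,10)])))))))
(.n 6 8
(.n 1 2
(.l 0 [3,5,6,10,11] [] [(5,4),(3,0),(4,7),(6,1),(1,2),(2,9)])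
(.n 9 10
(.l 2 [2,3,5,6,9,11] [(9,10),(5,4),(3,0),(2,1),(4,7),(6,8)] [])
(.l 2 [2,3,5,6,10,11] [(5,4),(3,0),(4,7),(10,9),(2,1),(6,8)] [])))
(.l 0 [2,3,5,10,11] [] [(5,4),(3,0),(4,7),(8,6),(6,1),(2,9)])))))))
(.n 0 3
(.n 5 10
(.n 6 8
(.n 1 6
(.l 2 [0,1,2,5,7,11] [(0,3),(1,6),(2,9),(6,8),(7,4),(5,10)] [])
(.n 9 11
(.l 0 [0,2,5,6,7] [] [(6,1),(0,3),(2,9),(7,4),(5,10),(9,11)])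
(.n 0 1
(.n 10 11
(.l 0 [0,2,5,6,7] [] [(6,1),(0,3),(2,9),(7,4),(5,10),(10,11)])
(.n 1 2
(.l 0 [0,5,6,7,11] [] [(6,1),(1,2),(0,3),(2,9),(7,4),(5,10)])
(.n 4 5
(.l 0 [0,2,6,7,11] [] [(6,1),(0,3),(2,9),(7,4),(4,5),(5,10)])
(.n 3 5
(.l 0 [0,2,6,7,11] [] [(6,1),(0,3),(2,9),(7,4),(3,5),(5,10)])
(.n 7 8
(.n 0 2
(.n 3 4
(.l 2 [0,3,5,6,7,11] [(3,4),(5,10),(7,8),(6,1),(0,2),(2,9)] [])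
(.l 0 [0,5,6,7,11] [] [(6,1),(7,4),(4,3),(0,2),(2,9),(5,10)]))
(.n 3 4
(.l 2 [2,3,5,6,7,11] [(3,4),(5,10),(7,8),(6,1)] [(11,9),(2,0)])
(.l 2 [1,2,5,6,7,11] [(6,8),(7,4),(4,3),(5,10)] [(11,9),(2,0)])))
(.l 0 [0,2,5,6,11] [] [(8,7),(6,1),(0,3),(2,9),(7,4),(5,10)]))))))
(.l 0 [2,5,6,7,11] [] [(6,1),(1,0),(0,3),(2,9),(7,4),(5,10)]))))
(.n 1 6
(.n 0 1
(.n 7 8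
(.n 3 4
(.l 2 [0,1,2,5,7,11] [(0,3),(1,6),(2,9),(3,4),(5,10),(7,8)] [])
(.l 0 [0,2,5,7,11] [] [(8,6),(7,4),(4,3),(0,1),(2,9),(5,10)]))
(.l 0 [0,1,2,5,11] [] [(0,3),(1,6),(2,9),(8,7),(7,4),(5,10)]))
(.l 0 [1,2,5,7,11] [] [(8,6),(1,0),(0,3),(2,9),(7,4),(5,10)]))
(.l 0 [0,2,5,7,11] [] [(8,6),(6,1),(0,3),(2,9),(7,4),(5,10)])))
(.n 1 6
(.n 10 11
(.n 7 8
(.n 4 5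
(.l 0 [0,1,2,7,10] [] [(0,3),(1,6),(2,9),(7,4),(4,5),(10,11)])
(.l 2 [0,1,2,5,7,10] [(0,3),(1,6),(2,9),(5,4),(7,8),(10,11)] []))
(.l 0 [0,1,2,5,10] [] [(0,3),(1,6),(2,9),(8,7),(7,4),(10,11)]))
(.l 2 [0,1,2,7,8,11] [(0,3),(1,6),(2,9),(7,4)] [(11,10),(10,5)]))
(.n 10 11
(.n 7 8
(.n 3 5
(.l 0 [0,2,6,7,10] [] [(6,1),(0,3),(2,9),(7,4),(3,5),(10,11)])
(.n 9 11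
(.l 0 [0,2,6,7,10] [] [(6,1),(0,3),(2,9),(7,4),(9,11),(10,5)])
(.n 0 2
(.l 0 [0,5,6,7,10] [] [(6,1),(7,4),(5,3),(0,2),(2,9),(10,11)])
(.l 2 [2,4,6,7,10,11] [(7,8),(6,1)] [(11,9),(2,0),(0,3),(10,5)]))))
(.l 0 [0,2,5,6,10] [] [(8,7),(6,1),(0,3),(2,9),(7,4),(10,11)]))
(.l 2 [0,2,6,7,8,11] [(6,1),(0,3),(2,9),(7,4)] [(11,10),(10,5)]))))
(.n 6 8
(.n 10 11
(.n 3 5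
(.n 0 1
(.l 2 [0,2,3,6,7,10] [(0,1),(2,9),(6,8),(7,4),(3,5),(10,11)] [])
(.l 2 [1,2,3,6,7,10] [(1,0),(2,9),(6,8),(7,4),(3,5),(10,11)] []))
(.l 2 [1,2,5,6,7,10] [(6,8),(7,4),(5,3),(3,0),(2,9),(10,11)] []))
(.n 5 10
(.n 9 11
(.l 2 [1,2,3,5,6,7] [(6,8),(7,4),(3,0),(2,9),(5,10),(9,11)] [])
(.n 1 2
(.l 2 [1,3,5,6,7,11] [(6,8),(7,4),(3,0),(1,2),(2,9),(5,10)] [])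
(.n 1 6
(.l 2 [2,3,5,6,7,11] [(6,8),(7,4),(3,0),(5,10)] [(11,9),(2,1)])
(.n 0 2
(.l 0 [3,5,6,7,11] [] [(6,1),(7,4),(3,0),(0,2),(2,9),(5,10)])
(.n 7 8
(.n 3 4
(.n 4 5
(.l 0 [2,3,6,7,11] [] [(6,1),(7,4),(4,5),(3,0),(2,9),(5,10)])
(.n 0 1
(.n 3 5
(.l 2 [0,2,3,6,7,11] [(0,1),(2,9),(6,8),(7,4),(3,5),(5,10)] [])
(.l 2 [0,2,5,6,7,11] [(0,1),(2,9),(6,8),(7,4)] [(11,10),(5,3)]))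
(.n 3 5
(.l 0 [2,3,6,7,11] [] [(6,1),(1,0),(2,9),(7,4),(3,5),(5,10)])
(.l 2 [1,2,5,6,7,11] [(1,0),(2,9),(6,8),(7,4)] [(11,10),(5,3)]))))
(.l 0 [2,5,6,7,11] [] [(6,1),(7,4),(4,3),(3,0),(2,9),(5,10)]))
(.l 0 [2,3,5,6,11] [] [(8,7),(6,1),(7,4),(3,0),(2,9),(5,10)]))))))
(.n 0 1
(.l 2 [0,2,3,6,7,11] [(0,1),(2,9),(6,8),(7,4)] [(11,10),(10,5)])
(.l 2 [1,2,3,6,7,11] [(1,0),(2,9),(6,8),(7,4)] [(11,10),(10,5)]))))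
(.n 5 10
(.n 0 1
(.l 0 [2,3,5,7,11] [] [(8,6),(7,4),(3,0),(0,1),(2,9),(5,10)])
(.n 3 5
(.l 0 [1,2,3,7,11] [] [(8,6),(1,0),(2,9),(7,4),(3,5),(5,10)])
(.n 1 2
(.l 0 [1,3,5,7,11] [] [(8,6),(7,4),(3,0),(1,2),(2,9),(5,10)])
(.n 9 10
(.l 0 [1,2,5,7,11] [] [(8,6),(1,0),(2,9),(7,4),(9,10),(5,3)])
(.l 0 [2,3,5,7,11] [] [(8,6),(7,4),(3,0),(5,10),(10,9),(2,1)])))))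
(.n 1 2
(.n 10 11
(.l 0 [1,3,5,7,10] [] [(8,6),(7,4),(3,0),(1,2),(2,9),(10,11)])
(.n 6 7
(.l 2 [0,1,3,6,8,11] [(1,2),(2,9),(6,7),(7,4)] [(11,10),(10,5)])
(.n 4 5
(.l 0 [1,3,7,10,11] [] [(8,6),(7,4),(4,5),(3,0),(1,2),(2,9)])
(.l 2 [1,3,5,7,8,11] [(5,4),(3,0),(7,6),(1,2),(2,9)] [(11,10)]))))
(.n 9 10
(.l 0 [2,3,7,9,11] [] [(8,6),(7,4),(9,10),(10,5),(3,0),(2,1)])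
(.n 9 11
(.l 0 [2,3,7,9,10] [] [(8,6),(7,4),(9,11),(10,5),(3,0),(2,1)])
(.n 4 5
(.l 0 [2,3,7,10,11] [] [(8,6),(7,4),(4,5),(3,0),(10,9),(2,1)])
(.n 6 7
(.l 2 [2,3,6,8,10,11] [] [(11,9),(10,5),(5,4),(3,0),(2,1),(6,7)])
(.l 2 [2,3,7,8,10,11] [] [(11,9),(10,5),(5,4),(3,0),(2,1),(7,6)]))))))))))
(.n 4 7
(.n 1 6
(.n 0 3
(.n 10 11
(.n 7 8
(.l 2 [0,1,4,5,9,10] [(10,11),(9,2),(0,3),(1,6),(4,7),(7,8)] [])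
(.n 4 5
(.n 5 10
(.l 0 [0,1,2,4,9] [] [(0,3),(1,6),(8,7),(4,5),(5,10),(10,11)])
(.n 9 11
(.n 1 2
(.n 0 2
(.n 6 8
(.l 2 [0,1,2,4,9,10] [(0,3),(1,6),(9,11),(10,5),(4,7),(6,8)] [])
(.n 3 4
(.l 0 [0,1,2,9,10] [] [(0,3),(1,6),(8,7),(9,11),(10,5),(3,4)])
(.n 3 5
(.n 0 1
(.l 0 [0,3,4,9,10] [] [(3,5),(4,7),(8,6),(10,11),(9,2),(0,1)])
(.l 0 [1,3,4,9,10] [] [(3,5),(4,7),(8,6),(10,11),(9,2),(1,0)]))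
(.n 0 1
(.l 0 [0,2,4,9,10] [] [(9,11),(10,5),(5,3),(0,1),(1,6),(4,7)])
(.l 0 [1,2,4,9,10] [] [(9,11),(10,5),(5,3),(4,7),(8,6),(1,0)])))))
(.l 0 [1,2,4,9,10] [] [(2,0),(0,3),(1,6),(8,7),(4,5),(9,11)]))
(.l 0 [0,2,4,9,10] [] [(2,1),(0,3),(1,6),(8,7),(4,5),(9,11)]))
(.l 0 [0,1,4,9,10] [] [(9,2),(0,3),(1,6),(8,7),(4,5),(10,11)])))
(.l 0 [0,1,5,9,10] [] [(10,11),(9,2),(0,3),(1,6),(5,4),(4,7)])))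
(.n 3 5
(.l 2 [0,1,4,8,9,11] [] [(11,10),(9,2),(0,3),(1,6),(3,5),(4,7)])
(.n 0 1
(.l 2 [0,4,5,8,9,11] [] [(11,10),(5,3),(4,7),(9,2),(0,1),(1,6)])
(.n 4 5
(.n 6 7
(.l 2 [0,1,4,8,9,11] [] [(11,10),(9,2),(0,3),(1,6),(6,7),(4,5)])
(.l 2 [1,4,5,8,9,11] [] [(11,10),(5,3),(4,7),(7,6),(9,2),(1,0)]))
(.l 2 [0,1,5,8,9,11] [] [(11,10),(9,2),(0,3),(1,6),(5,4),(4,7)])))))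
(.n 5 10
(.n 9 11
(.n 6 8
(.l 2 [1,2,3,4,5,9] [(3,0),(1,6),(4,7),(5,10),(6,8),(9,11)] [])
(.n 1 2
(.l 0 [1,3,4,5,9] [] [(3,0),(4,7),(5,10),(8,6),(1,2),(9,11)])
(.l 0 [2,3,4,5,9] [] [(3,0),(2,1),(1,6),(4,7),(5,10),(9,11)])))
(.l 2 [1,3,4,5,8,11] [(3,0),(4,7),(5,10)] [(11,9),(9,2),(1,6)]))
(.n 10 11
(.n 6 8
(.l 2 [1,3,4,5,9,10] [(3,0),(4,7),(10,11),(9,2),(1,6),(6,8)] [])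
(.n 4 5
(.n 3 5
(.n 7 8
(.l 2 [0,1,3,4,9,10] [(3,5),(4,7),(10,11),(9,2),(1,6),(7,8)] [])
(.n 1 2
(.n 0 1
(.l 0 [0,3,4,9,10] [] [(3,5),(4,7),(8,6),(10,11),(9,2),(0,1)])
(.n 9 11
(.n 0 2
(.n 3 4
(.l 0 [0,1,3,9,10] [] [(0,2),(1,6),(8,7),(9,11),(10,5),(3,4)])
(.l 0 [0,1,4,9,10] [] [(0,2),(1,6),(8,7),(9,11),(10,5),(4,3)]))
(.n 3 4
(.l 0 [1,2,3,9,10] [] [(2,0),(1,6),(8,7),(9,11),(10,5),(3,4)])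
(.l 0 [1,2,4,9,10] [] [(2,0),(1,6),(8,7),(9,11),(10,5),(4,3)])))
(.l 2 [1,3,4,8,10,11] [] [(11,9),(9,2),(10,5),(3,0),(1,6),(4,7)])))
(.l 0 [0,3,4,9,10] [] [(3,5),(4,7),(8,6),(10,11),(9,2),(2,1)])))
(.l 0 [1,4,5,9,10] [] [(5,3),(3,0),(4,7),(8,6),(10,11),(9,2)]))
(.l 0 [1,3,5,9,10] [] [(5,4),(3,0),(4,7),(8,6),(10,11),(9,2)])))
(.l 2 [1,3,4,8,9,11] [] [(11,10),(9,2),(10,5),(3,0),(1,6),(4,7)]))))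
(.n 5 10
(.n 9 11
(.n 0 2
(.n 3 4
(.l 0 [0,3,5,6,9] [] [(3,4),(4,7),(5,10),(6,1),(0,2),(9,11)])
(.n 7 8
(.l 2 [0,3,4,5,6,9] [(4,7),(5,10),(7,8),(6,1),(0,2),(9,11)] [])
(.l 0 [0,4,5,6,9] [] [(8,7),(4,3),(5,10),(6,1),(0,2),(9,11)])))
(.n 7 8
(.l 2 [2,3,4,5,6,9] [(4,7),(5,10),(7,8),(6,1),(2,0),(9,11)] [])
(.n 3 4
(.l 0 [2,3,5,6,9] [] [(8,7),(6,1),(2,0),(3,4),(5,10),(9,11)])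
(.l 0 [2,4,5,6,9] [] [(8,7),(4,3),(5,10),(6,1),(2,0),(9,11)]))))
(.n 0 2
(.n 3 5
(.l 2 [0,3,4,6,8,11] [(3,5),(4,7),(5,10),(6,1),(0,2)] [(11,9)])
(.n 0 1
(.n 3 4
(.l 2 [0,3,5,6,8,11] [(3,4),(4,7),(5,10),(6,1),(0,2)] [(11,9)])
(.n 7 8
(.l 2 [0,3,4,5,6,11] [(4,7),(5,10),(7,8),(6,1),(0,2)] [(11,9)])
(.n 9 10
(.n 10 11
(.l 0 [0,4,5,6,9] [] [(8,7),(4,3),(5,10),(6,1),(0,2),(10,11)])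
(.n 6 7
(.n 0 3
(.n 1 2
(.n 4 5
(.l 0 [0,4,6,9,11] [] [(8,7),(6,1),(1,2),(0,3),(4,5),(5,10)])
(.l 0 [0,5,6,9,11] [] [(8,7),(6,1),(1,2),(0,3),(9,10),(5,4)]))
(.n 4 5
(.l 2 [0,2,4,6,8,11] [(2,1),(0,3),(6,7),(4,5),(5,10)] [(11,9)])
(.l 2 [0,5,6,8,9,11] [] [(11,10),(9,2),(2,1),(0,3),(5,4),(4,7)])))
(.l 0 [4,5,6,9,11] [] [(8,7),(4,3),(3,0),(5,10),(6,1),(0,2)]))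
(.l 2 [0,3,4,5,8,11] [(4,7),(5,10),(7,6),(6,1),(0,2)] [(11,9)])))
(.l 0 [0,4,5,6,11] [] [(8,7),(4,3),(5,10),(6,1),(0,2),(10,9)]))))
(.l 2 [3,4,5,6,8,11] [(4,7),(5,10),(6,1)] [(11,9),(9,2),(1,0)])))
(.l 2 [3,4,5,6,8,11] [(4,7),(5,10),(6,1)] [(11,9),(9,2),(2,0)])))
(.n 0 3
(.n 6 8
(.n 1 2
(.n 9 11
(.l 2 [0,1,4,6,9,10] [(1,2),(0,3),(9,11),(10,5),(4,7),(6,8)] [])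
(.n 3 5
(.l 2 [0,1,4,6,10,11] [(1,2),(0,3),(3,5),(4,7),(6,8)] [(11,9)])
(.l 2 [0,4,6,8,10,11] [] [(11,9),(9,2),(10,5),(5,3),(4,7),(6,1)])))
(.l 2 [0,4,6,9,10,11] [(9,2),(2,1),(0,3),(10,5),(4,7),(6,8)] []))
(.n 0 2
(.n 3 5
(.n 9 10
(.l 0 [0,3,4,9,11] [] [(3,5),(4,7),(8,6),(6,1),(0,2),(9,10)])
(.l 0 [0,3,4,10,11] [] [(3,5),(4,7),(8,6),(6,1),(0,2),(10,9)]))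
(.l 0 [0,4,9,10,11] [] [(9,2),(10,5),(5,3),(4,7),(8,6),(6,1)]))
(.l 0 [1,4,9,10,11] [] [(9,2),(2,0),(0,3),(10,5),(4,7),(8,6)])))
(.n 6 8
(.n 9 11
(.n 1 2
(.n 7 8
(.l 2 [2,3,4,6,9,10] [(9,11),(10,5),(3,0),(4,7),(7,8),(6,1)] [])
(.n 3 4
(.l 0 [0,3,6,9,10] [] [(8,7),(6,1),(1,2),(9,11),(10,5),(3,4)])
(.l 0 [0,4,6,9,10] [] [(8,7),(6,1),(1,2),(9,11),(10,5),(4,3)])))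
(.l 2 [2,3,4,6,9,10] [(9,11),(10,5),(3,0),(2,1),(4,7),(6,8)] []))
(.l 2 [3,4,6,8,10,11] [] [(11,9),(9,2),(10,5),(3,0),(4,7),(6,1)]))
(.l 0 [3,4,9,10,11] [] [(9,2),(10,5),(3,0),(4,7),(8,6),(6,1)])))))
(.n 1 6
(.n 10 11
(.n 0 3
(.n 7 8
(.n 4 5
(.n 6 8
(.l 2 [0,1,2,7,9,10] [(0,3),(1,6),(6,8),(7,4),(4,5),(10,11)] [])
(.n 1 2
(.l 0 [0,1,7,9,10] [] [(8,6),(1,2),(0,3),(7,4),(4,5),(10,11)])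
(.l 0 [0,2,7,9,10] [] [(2,1),(0,3),(1,6),(7,4),(4,5),(10,11)])))
(.l 2 [0,1,5,7,9,10] [(10,11),(9,2),(0,3),(1,6),(5,4),(7,8)] []))
(.l 0 [0,1,5,9,10] [] [(10,11),(9,2),(0,3),(1,6),(8,7),(7,4)]))
(.n 6 8
(.n 4 5
(.l 2 [1,3,4,7,9,10] [(4,5),(3,0),(10,11),(9,2),(1,6),(6,8)] [])
(.l 2 [1,3,5,7,9,10] [(5,4),(3,0),(10,11),(9,2),(1,6),(6,8)] []))
(.n 4 5
(.l 0 [1,3,7,9,10] [] [(8,6),(7,4),(4,5),(3,0),(10,11),(9,2)])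
(.n 7 8
(.l 2 [1,3,5,7,9,10] [(5,4),(3,0),(10,11),(9,2),(1,6),(7,8)] [])
(.l 0 [1,3,5,9,10] [] [(5,4),(3,0),(10,11),(9,2),(1,6),(8,7)])))))
(.n 3 5
(.n 0 1
(.l 2 [0,3,7,8,9,11] [] [(11,10),(9,2),(0,1),(1,6),(7,4),(3,5)])
(.n 0 2
(.n 6 7
(.l 2 [0,1,3,8,9,11] [(0,2),(1,6),(6,7),(7,4),(3,5)] [(11,10)])
(.n 6 8
(.l 2 [0,1,3,7,9,11] [(0,2),(1,6),(6,8),(7,4),(3,5)] [(11,10)])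
(.n 0 3
(.l 0 [1,7,9,10,11] [] [(8,6),(7,4),(9,2),(1,0),(0,3),(3,5)])
(.n 5 10
(.n 9 11
(.l 0 [0,1,3,7,9] [] [(0,2),(1,6),(7,4),(3,5),(5,10),(9,11)])
(.l 2 [0,1,3,7,8,11] [(0,2),(1,6),(7,4),(3,5),(5,10)] [(11,9)]))
(.n 1 2
(.n 4 5
(.n 9 10
(.l 0 [1,3,7,9,11] [] [(8,6),(7,4),(4,5),(3,0),(0,2),(9,10)])
(.l 0 [1,3,7,10,11] [] [(8,6),(7,4),(4,5),(3,0),(0,2),(10,9)]))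
(.l 2 [1,3,7,8,9,11] [] [(11,10),(9,2),(10,5),(5,4),(3,0),(1,6)]))
(.l 0 [3,7,9,10,11] [] [(8,6),(7,4),(9,2),(2,1),(1,0),(3,5)]))))))
(.l 2 [1,3,7,8,9,11] [] [(11,10),(9,2),(2,0),(1,6),(7,4),(3,5)])))
(.n 0 2
(.n 5 10
(.n 6 7
(.l 2 [0,1,5,8,9,11] [] [(11,10),(9,2),(1,6),(6,7),(7,4),(5,3)])
(.n 1 2
(.n 9 11
(.n 6 8
(.l 2 [0,1,3,5,7,9] [(0,2),(1,6),(6,8),(7,4),(5,10),(9,11)] [])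
(.n 0 3
(.l 0 [0,1,5,7,9] [] [(8,6),(1,2),(0,3),(7,4),(5,10),(9,11)])
(.l 0 [1,3,5,7,9] [] [(8,6),(7,4),(3,0),(0,2),(5,10),(9,11)])))
(.n 0 3
(.n 6 8
(.l 2 [0,1,2,5,7,11] [(0,3),(1,6),(6,8),(7,4),(5,10)] [(11,9)])
(.n 4 5
(.l 0 [0,1,7,9,11] [] [(8,6),(1,2),(0,3),(7,4),(4,5),(5,10)])
(.n 0 1
(.n 3 4
(.l 2 [0,3,5,7,8,11] [(3,4),(5,10),(7,6)] [(11,9),(9,2),(0,1)])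
(.l 0 [0,5,7,9,11] [] [(8,6),(7,4),(4,3),(5,10),(9,2),(0,1)]))
(.n 3 4
(.l 2 [1,3,5,7,8,11] [(3,4),(5,10),(7,6)] [(11,9),(9,2),(1,0)])
(.l 0 [1,5,7,9,11] [] [(8,6),(7,4),(4,3),(5,10),(9,2),(1,0)])))))
(.n 3 4
(.n 4 5
(.l 2 [0,1,3,7,8,11] [(0,2),(1,6),(3,4),(4,5),(5,10)] [(11,9)])
(.n 7 8
(.l 2 [0,1,3,5,7,11] [(0,2),(1,6),(3,4),(5,10),(7,8)] [(11,9)])
(.n 9 10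
(.l 0 [0,1,5,9,11] [] [(0,2),(1,6),(8,7),(7,4),(9,10),(5,3)])
(.l 0 [0,1,3,5,11] [] [(0,2),(1,6),(3,4),(5,10),(8,7),(10,9)]))))
(.l 2 [0,1,5,7,8,11] [(0,2),(1,6),(7,4),(4,3),(5,10)] [(11,9)]))))
(.l 2 [0,5,7,8,9,11] [] [(11,10),(9,2),(2,1),(1,6),(7,4),(5,3)])))
(.l 2 [0,1,7,8,9,11] [] [(11,10),(9,2),(1,6),(7,4),(10,5),(5,3)]))
(.l 2 [1,5,7,8,9,11] [] [(11,10),(9,2),(2,0),(1,6),(7,4),(5,3)]))))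
(.n 5 10
(.n 0 3
(.n 9 11
(.n 6 8
(.n 1 2
(.l 0 [0,5,6,7,9] [] [(6,1),(1,2),(0,3),(7,4),(5,10),(9,11)])
(.l 2 [0,2,5,6,7,9] [(2,1),(0,3),(6,8),(7,4),(5,10),(9,11)] []))
(.l 0 [0,2,5,7,9] [] [(8,6),(6,1),(0,3),(7,4),(5,10),(9,11)]))
(.n 0 1
(.n 3 4
(.n 6 7
(.l 2 [0,3,5,6,8,11] [(3,4),(5,10)] [(11,9),(9,2),(0,1),(6,7)])
(.l 2 [0,3,5,7,8,11] [(3,4),(5,10),(7,6),(6,1)] [(11,9),(9,2)]))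
(.l 2 [0,5,6,7,8,11] [(6,1),(7,4),(4,3),(5,10)] [(11,9),(9,2)]))
(.l 2 [2,5,6,7,8,11] [(6,1),(1,0),(0,3),(7,4),(5,10)] [(11,9)])))
(.n 6 8
(.n 9 11
(.n 0 2
(.l 0 [3,5,6,7,9] [] [(6,1),(7,4),(3,0),(0,2),(5,10),(9,11)])
(.n 10 11
(.l 0 [3,5,6,7,9] [] [(6,1),(7,4),(3,0),(5,10),(10,11),(9,2)])
(.n 3 5
(.l 0 [2,3,6,7,9] [] [(6,1),(2,0),(7,4),(3,5),(5,10),(9,11)])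
(.l 2 [1,5,6,7,9,11] [(6,8),(7,4)] [(11,10),(5,3),(3,0),(9,2)]))))
(.l 2 [1,3,5,6,7,11] [(6,8),(7,4),(3,0),(5,10)] [(11,9),(9,2)]))
(.l 0 [3,5,7,9,11] [] [(8,6),(6,1),(7,4),(3,0),(5,10),(9,2)])))
(.n 0 3
(.n 9 11
(.n 6 8
(.n 1 2
(.l 0 [0,6,7,9,10] [] [(6,1),(1,2),(0,3),(7,4),(9,11),(10,5)])
(.l 2 [0,2,6,7,9,10] [(2,1),(0,3),(6,8),(7,4),(9,11),(10,5)] []))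
(.l 0 [0,2,7,9,10] [] [(8,6),(6,1),(0,3),(7,4),(9,11),(10,5)]))
(.l 2 [0,6,7,8,10,11] [(6,1),(7,4)] [(11,9),(9,2),(0,3),(10,5)]))
(.n 7 8
(.n 10 11
(.n 4 5
(.l 0 [3,6,7,9,10] [] [(6,1),(7,4),(4,5),(3,0),(10,11),(9,2)])
(.l 2 [3,5,6,7,9,10] [(5,4),(3,0),(7,8),(6,1),(10,11),(9,2)] []))
(.l 2 [3,4,6,7,9,11] [(7,8),(6,1)] [(11,10),(9,2),(10,5),(3,0)]))
(.l 0 [3,6,9,10,11] [] [(8,7),(6,1),(7,4),(9,2),(10,5),(3,0)])))))))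

def treeB : Tr :=
(.n 0 3
(.n 1 6
(.n 4 7
(.n 5 10
(.n 2 9
(.l 3 [0,1,2,4,5,11] [(0,3),(1,6),(2,9),(4,7),(5,10)] [])
(.n 1 2
(.n 9 10
(.n 4 5
(.n 3 5
(.l 3 [0,1,2,4,9,11] [(0,3),(1,6),(3,5),(4,7),(5,10)] [])
(.n 0 1
(.l 3 [0,2,4,5,9,11] [(9,10),(5,3),(0,1),(1,6),(4,7)] [])
(.n 6 7
(.l 3 [0,1,2,4,9,11] [(0,3),(1,6),(9,10)] [(6,7),(4,5)])
(.l 3 [1,2,4,5,9,11] [(9,10),(5,3),(4,7)] [(7,6),(1,0)]))))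
(.l 3 [0,1,2,5,9,11] [(0,3),(1,6),(9,10),(5,4),(4,7)] []))
(.l 3 [0,1,2,4,5,11] [(0,3),(1,6),(4,7),(5,10),(10,9)] []))
(.l 3 [0,2,4,5,9,11] [(2,1),(0,3),(1,6),(4,7),(5,10)] [])))
(.n 2 9
(.l 3 [0,1,2,4,10,11] [(0,3),(1,6),(2,9),(10,5),(4,7)] [])
(.l 3 [0,1,4,9,10,11] [(9,2),(0,3),(1,6),(10,5),(4,7)] [])))
(.n 2 9
(.n 5 10
(.n 3 5
(.l 3 [0,1,2,4,7,11] [(0,3),(1,6),(2,9),(3,5),(5,10)] [])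
(.n 9 10
(.l 3 [0,1,2,5,7,11] [(0,3),(1,6),(2,9),(9,10)] [(7,4)])
(.n 0 2
(.n 3 4
(.l 3 [0,1,2,5,7,11] [(0,3),(1,6),(2,9),(3,4),(5,10)] [])
(.l 3 [0,1,4,5,7,11] [(4,3),(0,2),(1,6),(2,9),(5,10)] []))
(.l 3 [1,2,5,7,10,11] [(10,9),(2,0),(0,3),(1,6)] [(7,4)]))))
(.l 3 [0,1,2,7,10,11] [(0,3),(1,6),(2,9),(10,5)] [(7,4)]))
(.n 3 5
(.l 3 [0,1,7,9,10,11] [(9,2),(0,3),(1,6)] [(7,4),(3,5)])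
(.n 9 10
(.n 1 2
(.n 4 5
(.l 3 [0,1,2,7,9,11] [(0,3),(1,6),(9,10)] [(7,4),(4,5)])
(.n 6 7
(.l 3 [0,1,2,5,9,11] [(0,3),(1,6),(9,10),(5,4)] [(6,7)])
(.n 0 2
(.n 5 10
(.n 0 1
(.n 3 4
(.l 3 [0,3,5,7,9,11] [(3,4),(5,10),(9,2),(0,1),(1,6)] [])
(.l 3 [0,4,5,7,9,11] [(4,3),(5,10),(9,2),(0,1),(1,6)] []))
(.n 6 8
(.n 3 4
(.l 3 [1,3,5,7,9,11] [(3,4),(5,10),(9,2)] [(7,6),(1,0)])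
(.l 3 [1,4,5,7,9,11] [(4,3),(5,10),(9,2)] [(7,6),(1,0)]))
(.l 3 [1,2,5,7,9,11] [(9,10)] [(8,6),(1,0),(0,3),(5,4)])))
(.l 3 [0,1,2,7,9,11] [(0,3),(1,6),(9,10),(10,5),(5,4)] []))
(.l 3 [1,2,5,7,9,11] [(2,0),(0,3),(1,6),(9,10),(5,4)] []))))
(.l 3 [0,2,5,7,9,11] [(2,1),(0,3),(1,6),(9,10)] [(7,4)]))
(.l 3 [0,1,5,7,10,11] [(10,9),(9,2),(0,3),(1,6)] [(7,4)])))))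
(.n 9 10
(.n 4 5
(.n 6 7
(.n 1 2
(.l 3 [0,1,4,6,9,11] [(1,2),(0,3),(9,10)] [(6,7),(4,5)])
(.l 3 [0,2,4,6,9,11] [(2,1),(0,3),(9,10)] [(6,7),(4,5)]))
(.l 3 [0,2,4,7,9,11] [(9,10)] [(7,6),(6,1),(0,3),(4,5)]))
(.n 4 7
(.n 1 2
(.l 3 [0,1,5,6,9,11] [(1,2),(0,3),(9,10),(5,4),(4,7)] [])
(.l 3 [0,2,5,6,9,11] [(2,1),(0,3),(9,10),(5,4),(4,7)] []))
(.n 3 5
(.l 3 [0,2,6,7,9,11] [(9,10)] [(6,1),(0,3),(7,4),(3,5)])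
(.n 0 2
(.n 2 9
(.l 3 [0,5,6,7,9,11] [(9,10)] [(6,1),(7,4),(5,3),(0,2)])
(.n 0 1
(.n 6 7
(.n 1 2
(.l 3 [0,1,5,6,9,11] [(1,2),(0,3),(9,10),(5,4)] [(6,7)])
(.l 3 [0,2,5,6,9,11] [(2,1),(0,3),(9,10),(5,4)] [(6,7)]))
(.n 1 2
(.l 3 [0,1,5,7,9,11] [(1,2),(0,3),(9,10),(5,4)] [(7,6)])
(.l 3 [0,2,5,7,9,11] [(2,1),(0,3),(9,10),(5,4)] [(7,6)])))
(.l 3 [2,5,6,7,9,11] [(9,10)] [(6,1),(1,0),(0,3),(5,4)])))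
(.l 3 [2,5,6,7,9,11] [(9,10)] [(6,1),(2,0),(0,3),(5,4)])))))
(.n 4 7
(.n 0 2
(.n 3 5
(.l 3 [0,3,4,6,10,11] [(3,5),(4,7),(10,9)] [(6,1),(0,2)])
(.l 3 [0,4,5,6,10,11] [(5,3),(4,7),(10,9)] [(6,1),(0,2)]))
(.n 3 5
(.l 3 [2,3,4,6,10,11] [(3,5),(4,7),(10,9)] [(6,1),(2,0)])
(.l 3 [2,4,5,6,10,11] [(5,3),(4,7),(10,9)] [(6,1),(2,0)])))
(.n 0 2
(.n 3 5
(.n 2 9
(.n 6 7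
(.l 3 [0,1,2,6,10,11] [(0,3),(2,9)] [(6,7),(7,4),(3,5)])
(.l 3 [0,3,4,7,10,11] [(3,5),(10,9)] [(7,6),(6,1),(0,2)]))
(.l 3 [0,5,6,7,10,11] [(10,9),(9,2)] [(6,1),(0,3),(7,4)]))
(.l 3 [0,5,6,7,10,11] [(10,9)] [(6,1),(7,4),(5,3),(0,2)]))
(.l 3 [2,5,6,7,10,11] [(10,9)] [(6,1),(2,0),(0,3),(7,4)])))))
(.n 2 9
(.n 6 7
(.n 5 10
(.n 1 2
(.l 3 [1,3,4,5,6,11] [(3,0),(1,2),(2,9),(5,10)] [(6,7)])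
(.n 0 1
(.l 3 [2,3,4,5,6,11] [(3,0),(0,1),(2,9),(5,10)] [(6,7)])
(.n 3 4
(.l 3 [1,2,3,5,6,11] [(1,0),(2,9),(3,4),(5,10)] [(6,7)])
(.n 9 10
(.l 3 [1,2,4,5,6,11] [(1,0),(2,9),(9,10)] [(6,7),(4,3)])
(.l 3 [2,3,4,5,6,11] [(3,0),(5,10),(10,9),(2,1)] [(6,7)])))))
(.n 0 1
(.n 3 4
(.l 3 [0,2,3,6,10,11] [(0,1),(2,9),(10,5),(3,4)] [(6,7)])
(.l 3 [0,2,4,6,10,11] [(0,1),(2,9),(10,5)] [(6,7),(4,3)]))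
(.n 3 4
(.l 3 [1,2,3,6,10,11] [(1,0),(2,9),(10,5),(3,4)] [(6,7)])
(.l 3 [1,2,4,6,10,11] [(1,0),(2,9),(10,5)] [(6,7),(4,3)]))))
(.n 4 5
(.n 9 10
(.l 3 [1,2,3,4,7,11] [(4,5),(3,0),(2,9),(9,10)] [(7,6)])
(.n 1 2
(.l 3 [1,3,4,7,10,11] [(4,5),(3,0),(10,9)] [(7,6),(1,2)])
(.l 3 [2,3,4,7,10,11] [(4,5),(3,0),(10,9),(2,1)] [(7,6)])))
(.n 9 10
(.n 1 2
(.l 3 [1,3,5,7,9,11] [(9,10),(5,4),(3,0)] [(7,6),(1,2)])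
(.l 3 [2,3,5,7,9,11] [(9,10),(5,4),(3,0),(2,1)] [(7,6)]))
(.n 1 2
(.l 3 [1,3,5,7,10,11] [(5,4),(3,0),(10,9)] [(7,6),(1,2)])
(.l 3 [2,3,5,7,10,11] [(5,4),(3,0),(10,9),(2,1)] [(7,6)])))))
(.n 1 6
(.n 5 10
(.n 6 7
(.l 3 [1,3,4,5,9,11] [(3,0),(5,10),(9,2),(1,6)] [(6,7)])
(.n 3 4
(.n 1 2
(.n 4 5
(.l 3 [1,3,4,7,9,11] [(4,5),(3,0),(5,10),(9,2),(1,6)] [])
(.n 9 10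
(.n 0 1
(.l 3 [0,3,5,7,9,11] [(3,4),(5,10),(9,2),(0,1),(1,6)] [])
(.n 4 7
(.l 3 [0,1,3,5,9,11] [(3,4),(4,7),(5,10),(9,2),(1,6)] [])
(.n 3 5
(.n 0 2
(.l 3 [0,1,3,7,9,11] [(0,2),(1,6),(9,10)] [(7,4),(3,5)])
(.l 3 [1,2,3,7,9,11] [(2,0),(1,6),(9,10)] [(7,4),(3,5)]))
(.n 0 2
(.l 3 [0,1,5,7,9,11] [(0,2),(1,6),(9,10)] [(7,4),(5,3)])
(.l 3 [1,2,5,7,9,11] [(2,0),(1,6),(9,10)] [(7,4),(5,3)])))))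
(.l 3 [0,1,3,5,7,11] [(3,4),(5,10),(10,9),(9,2),(1,6)] [])))
(.l 3 [0,3,5,7,9,11] [(3,4),(5,10),(9,2),(2,1),(1,6)] []))
(.l 3 [1,4,5,7,9,11] [(4,3),(3,0),(5,10),(9,2),(1,6)] [])))
(.n 4 7
(.l 3 [1,3,4,9,10,11] [(9,2),(10,5),(3,0),(1,6),(4,7)] [])
(.n 1 2
(.n 6 7
(.l 3 [0,1,3,9,10,11] [(9,2),(1,6),(10,5)] [(6,7),(7,4)])
(.n 4 5
(.n 9 10
(.n 0 2
(.l 3 [0,1,3,7,9,11] [(0,2),(1,6),(9,10),(10,5)] [(7,4)])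
(.l 3 [1,2,3,7,9,11] [(2,0),(1,6),(9,10),(10,5)] [(7,4)]))
(.l 3 [1,3,4,7,10,11] [(4,5),(3,0),(10,9),(9,2),(1,6)] []))
(.l 3 [1,3,7,9,10,11] [(9,2),(10,5),(5,4),(3,0),(1,6)] [])))
(.l 3 [0,3,7,9,10,11] [(9,2),(2,1),(1,6),(10,5)] [(7,4)]))))
(.n 4 7
(.n 5 10
(.l 3 [3,4,5,6,9,11] [(3,0),(4,7),(5,10),(9,2)] [(6,1)])
(.l 3 [3,4,6,9,10,11] [(9,2),(10,5),(3,0),(4,7)] [(6,1)]))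
(.n 5 10
(.n 3 4
(.n 6 7
(.n 0 1
(.l 3 [0,3,5,6,9,11] [(3,4),(5,10),(9,2),(0,1)] [(6,7)])
(.n 3 5
(.l 3 [1,3,6,9,10,11] [(9,2),(1,0)] [(6,7),(7,4),(3,5)])
(.l 3 [1,5,6,9,10,11] [(9,2),(1,0)] [(6,7),(7,4),(5,3)])))
(.l 3 [0,3,5,7,9,11] [(3,4),(5,10),(9,2)] [(7,6),(6,1)]))
(.l 3 [4,5,6,7,9,11] [(4,3),(3,0),(5,10),(9,2)] [(6,1)]))
(.l 3 [3,6,7,9,10,11] [(9,2),(10,5)] [(6,1),(7,4),(3,0)]))))))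

def treeC : Tr :=
(.n 0 3
(.n 2 9
(.n 1 6
(.n 5 10
(.n 4 7
(.l 4 [0,1,2,4,5,8] [(0,3),(1,6),(2,9),(4,7),(5,10)] [])
(.l 4 [0,1,2,5,7,8] [(0,3),(1,6),(2,9),(7,4),(5,10)] []))
(.n 4 7
(.n 3 4
(.l 4 [0,1,2,5,8,10] [(0,3),(1,6),(2,9),(3,4),(4,7)] [])
(.n 6 7
(.l 4 [0,1,2,4,8,10] [(0,3),(1,6),(2,9),(6,7)] [(10,5)])
(.n 0 1
(.n 3 5
(.l 4 [0,1,2,4,8,10] [(0,3),(1,6),(2,9),(3,5),(4,7)] [])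
(.l 4 [0,2,4,5,8,10] [(5,3),(0,1),(1,6),(2,9),(4,7)] []))
(.l 4 [1,2,4,7,8,10] [(7,6),(1,0),(0,3),(2,9)] [(10,5)]))))
(.l 4 [0,1,2,7,8,10] [(0,3),(1,6),(2,9),(7,4)] [(10,5)])))
(.n 5 10
(.n 4 7
(.n 6 7
(.n 4 5
(.l 4 [0,1,2,4,6,8] [(0,3),(2,9),(6,7),(4,5),(5,10)] [])
(.n 0 1
(.n 9 10
(.l 4 [0,1,2,5,6,8] [(0,3),(2,9),(6,7)] [(9,10),(5,4)])
(.n 0 2
(.l 4 [0,3,4,5,6,8] [(4,7),(5,10),(6,1),(0,2),(2,9)] [])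
(.l 4 [1,2,5,6,8,10] [(6,7)] [(10,9),(2,0),(0,3),(5,4)])))
(.l 4 [0,2,4,5,6,8] [(0,3),(4,7),(5,10),(6,1),(2,9)] [])))
(.l 4 [0,1,2,4,5,8] [(0,3),(2,9),(4,7),(5,10),(7,6)] []))
(.l 4 [0,2,5,6,7,8] [(6,1),(0,3),(2,9),(7,4),(5,10)] []))
(.n 3 4
(.l 4 [0,2,6,7,8,10] [(6,1),(0,3),(2,9)] [(10,5),(3,4)])
(.n 6 7
(.n 1 2
(.l 4 [0,1,4,6,8,10] [(1,2),(0,3),(2,9),(6,7)] [(10,5)])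
(.n 4 5
(.n 0 1
(.n 9 10
(.l 4 [0,1,2,4,6,8] [(0,3),(2,9),(6,7),(4,5)] [(9,10)])
(.n 4 7
(.n 0 2
(.n 3 5
(.l 4 [0,3,4,6,8,10] [(3,5),(4,7),(6,1),(0,2),(2,9)] [])
(.l 4 [0,4,5,6,8,10] [(5,3),(4,7),(6,1),(0,2),(2,9)] []))
(.n 3 5
(.l 4 [2,3,4,6,8,10] [(3,5),(4,7),(6,1)] [(10,9),(2,0)])
(.l 4 [2,4,5,6,8,10] [(5,3),(4,7),(6,1)] [(10,9),(2,0)])))
(.l 4 [0,1,2,6,8,10] [(0,3),(2,9),(6,7),(7,4),(4,5)] [])))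
(.l 4 [1,2,4,6,8,10] [(1,0),(0,3),(2,9),(6,7),(4,5)] []))
(.l 4 [0,1,2,6,8,10] [(0,3),(2,9),(6,7)] [(10,5),(5,4)])))
(.l 4 [0,2,4,7,8,10] [(7,6),(6,1),(0,3),(2,9)] [(10,5)])))))
(.n 6 7
(.n 4 5
(.n 5 10
(.n 1 2
(.l 4 [0,1,4,6,8,9] [(1,2),(0,3),(6,7),(4,5),(5,10)] [])
(.l 4 [0,2,4,6,8,9] [(2,1),(0,3),(6,7),(4,5),(5,10)] []))
(.n 3 4
(.l 4 [0,1,6,8,9,10] [(6,7)] [(9,2),(0,3),(10,5),(3,4)])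
(.n 0 1
(.n 1 6
(.l 4 [0,4,6,8,9,10] [(6,7)] [(9,2),(10,5),(4,3),(0,1)])
(.n 0 2
(.n 9 10
(.n 1 2
(.l 4 [0,1,4,6,8,9] [(1,2),(0,3),(6,7),(4,5)] [(9,10)])
(.l 4 [0,2,4,6,8,9] [(2,1),(0,3),(6,7),(4,5)] [(9,10)]))
(.n 4 7
(.n 3 5
(.l 4 [0,3,4,6,8,10] [(3,5),(4,7),(6,1),(0,2)] [(10,9)])
(.l 4 [0,4,5,6,8,10] [(5,3),(4,7),(6,1),(0,2)] [(10,9)]))
(.l 4 [0,1,2,6,8,10] [(0,3),(6,7),(7,4),(4,5)] [(10,9)])))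
(.l 4 [1,4,6,8,9,10] [(6,7)] [(9,2),(2,0),(0,3),(4,5)])))
(.l 4 [1,4,6,8,9,10] [(6,7)] [(9,2),(1,0),(0,3),(4,5)]))))
(.n 9 10
(.n 1 2
(.l 4 [0,1,5,6,8,9] [(1,2),(0,3),(6,7)] [(9,10),(5,4)])
(.l 4 [0,2,5,6,8,9] [(2,1),(0,3),(6,7)] [(9,10),(5,4)]))
(.l 4 [0,1,5,6,8,10] [(6,7)] [(10,9),(9,2),(0,3),(5,4)])))
(.n 5 10
(.n 0 1
(.n 3 4
(.l 4 [0,3,5,7,8,9] [(3,4),(5,10),(7,6)] [(9,2),(0,1)])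
(.l 4 [0,4,5,7,8,9] [(4,3),(5,10),(7,6)] [(9,2),(0,1)]))
(.n 3 4
(.l 4 [1,3,5,7,8,9] [(3,4),(5,10),(7,6)] [(9,2),(1,0)])
(.l 4 [1,4,5,7,8,9] [(4,3),(5,10),(7,6)] [(9,2),(1,0)])))
(.n 0 1
(.n 3 4
(.n 1 6
(.n 9 10
(.l 4 [0,1,2,7,8,9] [(0,3),(1,6)] [(9,10),(10,5),(3,4)])
(.l 4 [0,3,5,7,8,10] [(3,4),(7,6)] [(10,9),(9,2),(0,1)]))
(.l 4 [0,4,7,8,9,10] [(7,6),(6,1)] [(9,2),(0,3),(10,5)]))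
(.l 4 [0,4,7,8,9,10] [(7,6)] [(9,2),(10,5),(4,3),(0,1)]))
(.l 4 [1,4,7,8,9,10] [(7,6)] [(9,2),(1,0),(0,3),(10,5)])))))
(.n 5 10
(.n 4 7
(.n 1 6
(.n 2 9
(.l 4 [1,2,3,4,5,8] [(3,0),(1,6),(2,9),(4,7),(5,10)] [])
(.n 1 2
(.n 6 7
(.n 4 5
(.l 4 [1,3,4,6,8,9] [(6,7),(4,5),(3,0),(1,2),(5,10)] [])
(.n 10 11
(.l 4 [1,3,4,5,8,9] [(3,0),(4,7),(5,10),(10,11),(9,2),(1,6)] [])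
(.l 4 [1,3,5,6,8,9] [(6,7)] [(11,10),(5,4),(3,0),(1,2)])))
(.l 4 [1,3,4,5,8,9] [(3,0),(4,7),(5,10),(7,6),(1,2)] []))
(.l 4 [1,3,4,5,8,9] [(3,0),(1,6),(4,7),(5,10)] [(9,2)])))
(.n 2 9
(.l 4 [2,3,4,5,6,8] [(3,0),(4,7),(5,10),(6,1),(2,9)] [])
(.l 4 [3,4,5,6,8,9] [(3,0),(4,7),(5,10),(6,1)] [(9,2)])))
(.n 2 9
(.n 1 6
(.n 6 7
(.l 4 [0,1,2,3,5,8] [(1,6),(2,9),(6,7),(7,4),(5,10)] [])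
(.n 0 1
(.l 4 [0,2,3,5,7,8] [(0,1),(1,6),(2,9),(7,4),(5,10)] [])
(.n 1 2
(.l 4 [1,3,4,5,7,8] [(3,0),(5,10),(7,6),(1,2),(2,9)] [])
(.n 3 4
(.n 3 5
(.l 4 [0,1,2,3,7,8] [(1,6),(2,9),(7,4),(3,5),(5,10)] [])
(.n 9 10
(.l 4 [0,1,2,5,7,8] [(1,6),(2,9),(7,4)] [(9,10),(5,3)])
(.l 4 [0,2,3,5,7,8] [(3,4),(5,10),(7,6)] [(10,9),(2,1)])))
(.l 4 [0,1,2,5,7,8] [(1,6),(2,9),(7,4),(4,3),(5,10)] [])))))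
(.l 4 [2,3,5,6,7,8] [(6,1),(7,4),(3,0),(2,9),(5,10)] []))
(.n 0 1
(.l 4 [3,5,6,7,8,9] [(7,4),(3,0),(5,10)] [(9,2),(0,1)])
(.n 6 7
(.l 4 [1,3,5,6,8,9] [(6,7),(7,4),(3,0),(5,10)] [(9,2)])
(.n 4 5
(.l 4 [1,3,4,7,8,9] [(4,5),(3,0),(5,10),(7,6)] [(9,2)])
(.n 1 2
(.n 9 10
(.n 3 4
(.n 1 6
(.n 3 5
(.n 0 2
(.l 4 [0,1,3,7,8,9] [(0,2),(1,6),(7,4),(3,5),(5,10)] [])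
(.l 4 [1,2,3,7,8,9] [(2,0),(1,6),(7,4),(3,5),(5,10)] []))
(.n 10 11
(.n 0 2
(.l 4 [0,1,5,7,8,9] [(0,2),(1,6),(7,4)] [(9,10),(5,3)])
(.l 4 [1,2,5,7,8,9] [(2,0),(1,6),(7,4)] [(9,10),(5,3)]))
(.l 4 [1,4,5,7,8,9] [(7,6)] [(11,10),(5,3),(3,0),(1,2)])))
(.l 4 [0,3,5,7,8,9] [(3,4),(5,10),(7,6),(6,1),(1,2)] []))
(.l 4 [1,4,5,7,8,9] [(4,3),(3,0),(5,10),(7,6),(1,2)] []))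
(.l 4 [1,3,4,5,7,8] [(3,0),(5,10),(7,6),(1,2)] [(10,9)]))
(.l 4 [3,4,5,7,8,9] [(3,0),(5,10),(7,6)] [(9,2),(2,1)])))))))
(.n 1 2
(.n 6 7
(.n 4 5
(.n 9 10
(.l 4 [1,3,4,6,8,9] [(6,7),(4,5),(3,0),(1,2)] [(9,10)])
(.l 4 [1,3,4,6,8,10] [(6,7),(4,5),(3,0),(1,2)] [(10,9)]))
(.l 4 [1,3,6,8,9,10] [(6,7)] [(10,5),(5,4),(3,0),(1,2)]))
(.n 2 9
(.n 4 5
(.l 4 [1,3,4,7,8,10] [(4,5),(3,0),(7,6),(1,2),(2,9)] [])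
(.l 4 [1,3,5,7,8,10] [(5,4),(3,0),(7,6),(1,2),(2,9)] []))
(.n 0 1
(.l 4 [3,4,7,8,9,10] [(7,6)] [(9,2),(10,5),(3,0),(0,1)])
(.n 3 4
(.n 4 7
(.l 4 [1,3,7,8,9,10] [(7,6)] [(9,2),(1,0),(10,5),(3,4)])
(.n 3 5
(.n 1 6
(.n 10 11
(.n 9 10
(.n 0 2
(.l 4 [0,1,3,7,8,9] [(0,2),(1,6),(7,4),(3,5)] [(9,10)])
(.l 4 [1,2,3,7,8,9] [(2,0),(1,6),(7,4),(3,5)] [(9,10)]))
(.n 4 5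
(.l 4 [1,3,4,7,8,10] [(4,5),(3,0),(7,6),(1,2)] [(10,9)])
(.l 4 [1,3,5,7,8,10] [(5,4),(3,0),(7,6),(1,2)] [(10,9)])))
(.l 4 [1,3,4,7,8,9] [(7,6)] [(11,10),(9,2),(1,0),(3,5)]))
(.l 4 [3,4,7,8,9,10] [(7,6),(6,1)] [(9,2),(1,0),(3,5)]))
(.l 4 [1,4,7,8,9,10] [(7,6)] [(9,2),(1,0),(10,5),(5,3)])))
(.l 4 [1,4,7,8,9,10] [(7,6)] [(9,2),(1,0),(10,5),(4,3)])))))
(.n 6 7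
(.n 3 4
(.n 2 9
(.n 0 1
(.l 4 [0,2,3,6,8,10] [(0,1),(2,9),(6,7)] [(10,5),(3,4)])
(.l 4 [1,2,3,6,8,10] [(1,0),(2,9),(6,7)] [(10,5),(3,4)]))
(.n 4 5
(.n 9 10
(.l 4 [0,2,3,6,8,9] [(2,1),(6,7)] [(9,10),(10,5),(3,4)])
(.l 4 [1,3,4,6,8,10] [(6,7),(4,5),(3,0)] [(10,9),(9,2)]))
(.l 4 [1,3,6,8,9,10] [(6,7)] [(9,2),(10,5),(5,4),(3,0)])))
(.n 2 9
(.n 0 1
(.l 4 [0,2,4,6,8,10] [(0,1),(2,9),(6,7)] [(10,5),(4,3)])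
(.l 4 [1,2,4,6,8,10] [(1,0),(2,9),(6,7)] [(10,5),(4,3)]))
(.l 4 [1,4,6,8,9,10] [(6,7)] [(9,2),(10,5),(4,3),(3,0)])))
(.n 9 10
(.l 4 [2,3,4,7,8,9] [(7,6)] [(9,10),(10,5),(3,0),(2,1)])
(.n 4 5
(.l 4 [2,3,4,7,8,10] [(4,5),(3,0),(7,6)] [(10,9),(2,1)])
(.l 4 [2,3,5,7,8,10] [(5,4),(3,0),(7,6)] [(10,9),(2,1)])))))))

def treeD : Tr :=
(.n 2 9
(.n 0 3
(.n 4 7
(.n 5 10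
(.n 6 8
(.n 1 2
(.l 1 [0,1,4,5,6] [] [(1,2),(0,3),(2,9),(4,7),(5,10),(6,8)])
(.n 0 1
(.n 3 4
(.l 1 [0,1,2,5,6] [] [(0,3),(2,9),(3,4),(4,7),(5,10),(6,8)])
(.n 3 5
(.l 1 [0,1,2,4,6] [] [(0,3),(2,9),(3,5),(4,7),(5,10),(6,8)])
(.n 1 6
(.l 1 [0,1,2,4,5] [] [(0,3),(1,6),(2,9),(4,7),(5,10),(6,8)])
(.n 10 11
(.n 6 7
(.n 4 5
(.l 5 [0,1,2,4,6] [(0,3),(2,9),(6,7),(4,5),(5,10),(10,11)] [])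
(.n 9 10
(.l 1 [0,1,2,5,6] [] [(0,3),(2,9),(9,10),(5,4),(4,7),(6,8)])
(.l 1 [0,2,5,6,10] [] [(10,9),(2,1),(0,3),(5,4),(4,7),(6,8)])))
(.l 5 [0,1,2,4,5] [(0,3),(2,9),(4,7),(5,10),(7,6),(10,11)] []))
(.n 4 5
(.n 7 8
(.l 1 [0,2,4,6,7] [] [(7,8),(6,1),(0,3),(2,9),(4,5),(5,10)])
(.l 5 [0,2,4,6,11] [] [(8,7),(6,1),(0,3),(2,9),(4,5),(5,10)]))
(.l 1 [0,1,2,5,6] [] [(0,3),(2,9),(11,10),(5,4),(4,7),(6,8)]))))))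
(.l 1 [1,2,4,5,6] [] [(1,0),(0,3),(2,9),(4,7),(5,10),(6,8)])))
(.n 10 11
(.l 5 [0,1,2,4,5] [(0,3),(2,9),(4,7),(5,10),(10,11)] [(8,6)])
(.n 4 5
(.n 1 6
(.n 7 8
(.l 1 [0,1,2,4,5] [] [(0,3),(1,6),(2,9),(4,7),(5,10),(7,8)])
(.l 5 [0,1,2,4,11] [(0,3),(1,6),(2,9),(11,10)] [(8,7),(4,5)]))
(.l 5 [0,2,4,7,11] [] [(8,6),(6,1),(0,3),(2,9),(4,5),(5,10)]))
(.l 5 [0,1,2,5,11] [(0,3),(2,9),(11,10),(5,4),(4,7)] [(8,6)]))))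
(.n 6 8
(.n 1 2
(.l 1 [0,1,4,6,10] [] [(1,2),(0,3),(2,9),(10,5),(4,7),(6,8)])
(.n 9 11
(.n 0 1
(.n 6 7
(.n 9 10
(.l 1 [0,1,2,4,6] [] [(0,3),(2,9),(9,10),(10,5),(4,7),(6,8)])
(.n 4 5
(.n 10 11
(.n 3 4
(.l 1 [0,1,2,6,10] [] [(0,3),(2,9),(10,5),(3,4),(4,7),(6,8)])
(.n 1 6
(.l 1 [0,1,2,4,10] [] [(0,3),(1,6),(2,9),(10,5),(4,7),(6,8)])
(.n 0 2
(.n 3 5
(.l 5 [0,3,4,6,10] [(3,5),(4,7),(6,1),(0,2),(2,9),(9,11)] [])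
(.l 5 [0,4,5,6,10] [(5,3),(4,7),(6,1),(0,2),(2,9),(9,11)] []))
(.n 7 8
(.n 3 5
(.l 1 [2,3,4,6,10] [] [(3,5),(4,7),(7,8),(6,1),(10,9),(2,0)])
(.l 1 [2,4,5,6,10] [] [(5,3),(4,7),(7,8),(6,1),(10,9),(2,0)]))
(.l 5 [2,4,6,9,10] [(9,11),(10,5)] [(8,7),(4,3),(6,1),(2,0)])))))
(.l 1 [0,1,2,4,6] [] [(0,3),(2,9),(11,10),(10,5),(4,7),(6,8)]))
(.l 1 [0,1,2,6,10] [] [(0,3),(2,9),(10,5),(5,4),(4,7),(6,8)])))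
(.l 5 [0,1,2,4,10] [(0,3),(2,9),(9,11),(10,5),(4,7),(7,6)] []))
(.l 1 [1,2,4,6,10] [] [(1,0),(0,3),(2,9),(10,5),(4,7),(6,8)]))
(.l 1 [0,2,4,6,10] [] [(11,9),(2,1),(0,3),(10,5),(4,7),(6,8)])))
(.n 9 11
(.l 5 [0,1,2,4,10] [(0,3),(2,9),(9,11),(10,5),(4,7)] [(8,6)])
(.n 1 2
(.n 10 11
(.n 3 5
(.l 5 [0,1,2,4,10] [(0,3),(2,9),(3,5),(4,7),(10,11)] [(8,6)])
(.l 5 [0,1,4,10,11] [(11,9),(10,5),(5,3),(4,7)] [(8,6),(1,2)]))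
(.l 1 [0,1,4,6,8] [] [(1,2),(0,3),(2,9),(11,10),(10,5),(4,7)]))
(.l 5 [0,2,4,10,11] [(11,9),(2,1),(0,3),(10,5),(4,7)] [(8,6)])))))
(.n 5 10
(.n 1 6
(.n 9 11
(.l 5 [0,1,2,5,7] [(0,3),(1,6),(2,9),(7,4),(5,10),(9,11)] [])
(.n 6 8
(.l 1 [0,1,2,5,7] [] [(0,3),(1,6),(2,9),(6,8),(7,4),(5,10)])
(.n 1 2
(.l 5 [0,1,5,7,11] [] [(8,6),(1,2),(0,3),(2,9),(7,4),(5,10)])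
(.n 7 8
(.n 4 5
(.l 1 [0,1,2,4,7] [] [(0,3),(1,6),(2,9),(4,5),(5,10),(7,8)])
(.l 1 [0,2,5,7,10] [] [(11,9),(2,1),(0,3),(1,6),(5,4),(7,8)]))
(.l 5 [0,1,2,5,11] [(0,3),(1,6),(2,9)] [(8,7),(7,4),(5,10)])))))
(.n 10 11
(.l 5 [0,2,5,6,7] [(6,1),(0,3),(2,9),(7,4),(5,10),(10,11)] [])
(.n 7 8
(.n 3 5
(.l 1 [0,2,4,6,7] [] [(7,8),(6,1),(0,3),(2,9),(3,5),(5,10)])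
(.n 4 5
(.l 1 [0,2,4,6,7] [] [(7,8),(6,1),(0,3),(2,9),(4,5),(5,10)])
(.n 6 8
(.n 0 1
(.n 1 2
(.l 1 [0,1,5,6,7] [] [(1,2),(0,3),(2,9),(6,8),(7,4),(5,10)])
(.n 9 11
(.l 5 [0,2,5,6,7] [(6,1),(0,3),(2,9),(7,4),(5,10),(9,11)] [])
(.n 0 2
(.n 3 4
(.l 1 [0,3,5,6,7] [] [(3,4),(5,10),(7,8),(6,1),(0,2),(2,9)])
(.l 1 [0,1,5,6,7] [] [(6,8),(7,4),(4,3),(0,2),(2,9),(5,10)]))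
(.n 3 4
(.l 1 [2,3,5,6,7] [] [(3,4),(5,10),(7,8),(6,1),(11,9),(2,0)])
(.l 1 [1,2,5,6,7] [] [(6,8),(7,4),(4,3),(5,10),(11,9),(2,0)])))))
(.l 1 [1,2,5,6,7] [] [(1,0),(0,3),(2,9),(6,8),(7,4),(5,10)]))
(.l 1 [0,2,5,6,7] [] [(6,1),(0,3),(2,9),(11,10),(5,4),(7,8)]))))
(.l 5 [0,2,5,6,11] [] [(8,7),(6,1),(0,3),(2,9),(7,4),(5,10)]))))
(.n 1 6
(.n 6 8
(.l 1 [0,1,2,7,10] [] [(0,3),(1,6),(2,9),(6,8),(7,4),(10,5)])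
(.n 9 11
(.l 5 [0,1,2,7,10] [(0,3),(1,6),(2,9),(7,4),(9,11),(10,5)] [])
(.n 1 2
(.l 5 [0,1,7,10,11] [(11,9),(10,5)] [(8,6),(1,2),(0,3),(7,4)])
(.l 1 [0,2,7,8,10] [] [(11,9),(2,1),(0,3),(1,6),(7,4),(10,5)]))))
(.n 7 8
(.n 10 11
(.n 4 5
(.l 5 [0,2,6,7,10] [(6,1),(0,3),(2,9),(7,4),(4,5),(10,11)] [])
(.n 9 11
(.l 5 [0,2,6,7,10] [(6,1),(0,3),(2,9),(7,4),(9,11),(10,5)] [])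
(.n 1 2
(.l 1 [0,1,6,7,10] [] [(1,2),(0,3),(2,9),(10,5),(5,4),(7,8)])
(.l 1 [0,2,6,7,10] [] [(11,9),(2,1),(0,3),(10,5),(5,4),(7,8)]))))
(.l 1 [0,2,4,6,7] [] [(7,8),(6,1),(0,3),(2,9),(11,10),(10,5)]))
(.l 5 [0,2,6,10,11] [] [(8,7),(6,1),(0,3),(2,9),(7,4),(10,5)])))))
(.n 4 7
(.n 1 6
(.n 10 11
(.n 3 5
(.n 0 2
(.l 5 [0,1,3,4,10] [(0,2),(1,6),(2,9),(3,5),(4,7),(10,11)] [])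
(.n 0 1
(.l 5 [0,2,3,4,10] [(0,1),(1,6),(2,9),(3,5),(4,7),(10,11)] [])
(.n 5 10
(.l 5 [0,1,2,3,4] [(1,6),(2,9),(3,5),(4,7),(5,10),(10,11)] [])
(.n 9 11
(.n 3 4
(.l 5 [0,1,2,3,10] [(1,6),(2,9),(9,11),(10,5),(3,4),(4,7)] [])
(.n 6 7
(.l 5 [0,1,2,4,10] [(1,6),(2,9),(6,7),(9,11),(10,5),(4,3)] [])
(.l 5 [1,2,4,7,10] [(7,6),(1,0),(2,9),(9,11),(10,5),(4,3)] [])))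
(.n 6 8
(.l 1 [1,2,3,4,10] [] [(11,9),(2,0),(1,6),(3,5),(4,7),(6,8)])
(.n 1 2
(.l 5 [1,3,4,10,11] [(11,9),(10,5),(3,0),(4,7)] [(8,6),(1,2)])
(.l 1 [2,3,4,8,10] [] [(11,9),(10,5),(3,0),(2,1),(1,6),(4,7)])))))))
(.l 5 [1,2,4,5,10] [(5,3),(3,0),(1,6),(2,9),(4,7),(10,11)] []))
(.n 6 8
(.l 1 [1,2,3,4,5] [] [(3,0),(1,6),(2,9),(4,7),(6,8),(11,10)])
(.n 1 2
(.l 5 [1,3,4,5,11] [(3,0),(4,7)] [(8,6),(1,2),(2,9),(11,10)])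
(.n 5 10
(.n 9 11
(.l 5 [1,2,3,4,5] [(3,0),(1,6),(2,9),(4,7),(5,10),(9,11)] [])
(.l 1 [2,3,4,5,8] [] [(3,0),(4,7),(5,10),(11,9),(2,1),(1,6)]))
(.l 1 [2,3,4,8,9] [] [(11,10),(10,5),(3,0),(2,1),(1,6),(4,7)])))))
(.n 10 11
(.n 3 5
(.n 4 5
(.n 6 7
(.n 5 10
(.l 5 [0,2,3,4,6] [(3,5),(4,7),(5,10),(6,1),(2,9),(10,11)] [])
(.n 1 2
(.l 5 [0,3,4,6,10] [(3,5),(4,7),(6,1),(1,2),(2,9),(10,11)] [])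
(.n 0 2
(.l 5 [0,3,4,6,10] [(3,5),(4,7),(6,1),(0,2),(2,9),(10,11)] [])
(.n 9 11
(.n 6 8
(.n 3 4
(.n 0 1
(.l 1 [0,2,3,6,10] [] [(0,1),(2,9),(10,5),(3,4),(4,7),(6,8)])
(.l 1 [1,2,3,6,10] [] [(1,0),(2,9),(10,5),(3,4),(4,7),(6,8)]))
(.n 0 1
(.l 5 [0,2,4,6,10] [(0,1),(2,9),(6,7),(9,11),(10,5),(4,3)] [])
(.l 5 [1,2,4,6,10] [(1,0),(2,9),(6,7),(9,11),(10,5),(4,3)] [])))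
(.l 5 [2,3,4,9,10] [(9,11),(10,5),(3,0),(2,1),(4,7)] [(8,6)]))
(.n 6 8
(.l 1 [2,3,4,6,10] [] [(11,9),(10,5),(3,0),(2,1),(4,7),(6,8)])
(.l 5 [2,3,4,10,11] [(11,9),(10,5),(3,0),(2,1),(4,7)] [(8,6)]))))))
(.l 5 [0,2,3,4,10] [(3,5),(4,7),(7,6),(6,1),(2,9),(10,11)] []))
(.l 5 [2,3,5,6,10] [(5,4),(3,0),(4,7),(6,1),(2,9),(10,11)] []))
(.l 5 [2,4,5,6,10] [(5,3),(3,0),(4,7),(6,1),(2,9),(10,11)] []))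
(.n 7 8
(.l 1 [2,3,4,5,6] [] [(3,0),(4,7),(7,8),(6,1),(2,9),(11,10)])
(.n 4 5
(.l 5 [2,3,4,6,11] [] [(8,7),(4,5),(3,0),(6,1),(2,9),(11,10)])
(.n 6 8
(.n 1 2
(.l 1 [0,1,3,5,6] [] [(1,2),(2,9),(11,10),(5,4),(4,7),(6,8)])
(.l 1 [2,3,5,6,9] [] [(11,10),(5,4),(3,0),(2,1),(4,7),(6,8)]))
(.l 5 [2,3,4,5,11] [(3,0),(4,7)] [(8,6),(6,1),(2,9),(11,10)]))))))
(.n 10 11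
(.n 1 6
(.n 4 5
(.n 6 7
(.l 5 [0,1,2,3,10] [(1,6),(2,9),(6,7),(7,4),(4,5),(10,11)] [])
(.n 1 2
(.l 5 [1,3,4,7,10] [(4,5),(3,0),(7,6),(1,2),(2,9),(10,11)] [])
(.n 0 1
(.l 5 [0,2,3,7,10] [(0,1),(1,6),(2,9),(7,4),(4,5),(10,11)] [])
(.n 5 10
(.l 5 [0,1,2,3,7] [(1,6),(2,9),(7,4),(4,5),(5,10),(10,11)] [])
(.n 7 8
(.n 9 10
(.l 1 [1,2,3,4,7] [] [(4,5),(3,0),(1,6),(2,9),(7,8),(9,10)])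
(.l 1 [2,3,4,7,10] [] [(4,5),(3,0),(10,9),(2,1),(1,6),(7,8)]))
(.l 5 [1,2,3,4,10] [(4,5),(3,0),(1,6),(2,9),(10,11)] [(8,7)]))))))
(.n 6 7
(.l 5 [1,2,3,5,10] [(5,4),(3,0),(1,6),(2,9),(6,7),(10,11)] [])
(.n 7 8
(.n 1 2
(.l 5 [1,3,5,7,10] [(5,4),(3,0),(7,6),(1,2),(2,9),(10,11)] [])
(.n 9 10
(.l 1 [2,3,5,7,9] [] [(9,10),(5,4),(3,0),(2,1),(1,6),(7,8)])
(.l 1 [2,3,5,7,10] [] [(5,4),(3,0),(10,9),(2,1),(1,6),(7,8)])))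
(.l 5 [1,2,3,5,10] [(5,4),(3,0),(1,6),(2,9),(10,11)] [(8,7)]))))
(.n 3 5
(.n 0 1
(.n 4 5
(.l 5 [2,3,6,7,10] [(6,1),(7,4),(4,5),(3,0),(2,9),(10,11)] [])
(.n 6 7
(.l 5 [0,2,3,6,10] [(0,1),(2,9),(6,7),(7,4),(3,5),(10,11)] [])
(.l 5 [2,3,5,7,10] [(5,4),(3,0),(0,1),(2,9),(7,6),(10,11)] [])))
(.l 5 [2,3,6,7,10] [(6,1),(1,0),(2,9),(7,4),(3,5),(10,11)] []))
(.l 5 [2,5,6,7,10] [(6,1),(7,4),(5,3),(3,0),(2,9),(10,11)] [])))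
(.n 6 8
(.n 0 1
(.n 3 5
(.l 1 [0,2,3,6,7] [] [(0,1),(2,9),(6,8),(7,4),(3,5),(11,10)])
(.l 1 [0,2,5,6,7] [] [(0,1),(2,9),(6,8),(7,4),(11,10),(5,3)]))
(.n 3 5
(.l 1 [1,2,3,6,7] [] [(1,0),(2,9),(6,8),(7,4),(3,5),(11,10)])
(.l 1 [1,2,5,6,7] [] [(1,0),(2,9),(6,8),(7,4),(11,10),(5,3)])))
(.n 0 1
(.l 5 [2,3,5,7,11] [] [(8,6),(7,4),(3,0),(0,1),(2,9),(11,10)])
(.n 3 5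
(.l 5 [1,2,3,7,11] [] [(8,6),(1,0),(2,9),(7,4),(3,5),(11,10)])
(.l 5 [1,2,5,7,11] [] [(8,6),(1,0),(2,9),(7,4),(11,10),(5,3)])))))))
(.n 4 7
(.n 1 6
(.n 0 3
(.n 10 11
(.n 5 10
(.n 3 4
(.l 5 [0,1,2,5,9] [(0,3),(1,6),(3,4),(4,7),(5,10),(10,11)] [])
(.n 0 1
(.l 5 [0,3,4,5,9] [(4,7),(5,10),(10,11),(9,2),(0,1),(1,6)] [])
(.n 6 7
(.l 5 [1,4,5,6,9] [(6,7),(4,3),(5,10),(10,11),(9,2),(1,0)] [])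
(.l 5 [1,3,4,5,9] [(4,7),(5,10),(7,6),(10,11),(9,2),(1,0)] []))))
(.n 6 8
(.l 1 [0,1,4,9,10] [] [(9,2),(0,3),(1,6),(10,5),(4,7),(6,8)])
(.n 9 11
(.n 0 2
(.n 1 2
(.n 7 8
(.l 1 [0,1,4,9,10] [] [(9,2),(0,3),(1,6),(10,5),(4,7),(7,8)])
(.n 3 4
(.l 1 [0,1,8,9,10] [] [(9,2),(0,3),(1,6),(10,5),(3,4),(4,7)])
(.n 4 5
(.n 3 5
(.n 0 1
(.l 5 [0,3,4,9,10] [(3,5),(4,7),(10,11),(9,2),(0,1),(1,6)] [])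
(.l 5 [1,3,4,9,10] [(3,5),(4,7),(10,11),(9,2)] [(8,6),(1,0)]))
(.n 0 1
(.l 1 [0,4,8,9,10] [] [(9,2),(10,5),(5,3),(0,1),(1,6),(4,7)])
(.l 5 [1,2,4,9,10] [(9,11),(10,5),(5,3),(4,7)] [(8,6),(1,0)])))
(.l 1 [0,1,8,9,10] [] [(9,2),(0,3),(1,6),(10,5),(5,4),(4,7)]))))
(.l 1 [0,4,8,9,10] [] [(9,2),(2,1),(0,3),(1,6),(10,5),(4,7)]))
(.l 1 [1,4,8,9,10] [] [(9,2),(2,0),(0,3),(1,6),(10,5),(4,7)]))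
(.l 1 [0,1,4,8,10] [] [(11,9),(9,2),(0,3),(1,6),(10,5),(4,7)]))))
(.n 7 8
(.l 1 [0,1,4,5,9] [] [(11,10),(9,2),(0,3),(1,6),(4,7),(7,8)])
(.n 4 5
(.l 5 [0,1,4,9,11] [(11,10),(9,2),(0,3),(1,6)] [(8,7),(4,5)])
(.l 1 [0,1,5,8,9] [] [(11,10),(9,2),(0,3),(1,6),(5,4),(4,7)]))))
(.n 5 10
(.n 6 8
(.l 1 [1,3,4,5,9] [] [(3,0),(4,7),(5,10),(9,2),(1,6),(6,8)])
(.n 10 11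
(.l 5 [1,3,4,5,9] [(3,0),(4,7),(5,10),(10,11),(9,2),(1,6)] [])
(.n 4 5
(.n 9 11
(.n 1 2
(.n 6 7
(.l 5 [1,3,4,6,9] [(6,7),(4,5),(3,0),(1,2),(5,10),(9,11)] [])
(.l 5 [1,3,4,5,9] [(3,0),(4,7),(5,10),(7,6),(1,2),(9,11)] []))
(.l 1 [3,4,5,8,9] [] [(3,0),(4,7),(5,10),(9,2),(2,1),(1,6)]))
(.l 1 [1,3,4,5,8] [] [(3,0),(4,7),(5,10),(11,9),(9,2),(1,6)]))
(.l 1 [1,3,5,8,9] [] [(11,10),(5,4),(3,0),(4,7),(9,2),(1,6)]))))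
(.n 7 8
(.l 1 [1,3,4,9,10] [] [(9,2),(10,5),(3,0),(1,6),(4,7),(7,8)])
(.n 10 11
(.n 3 5
(.n 9 11
(.n 4 5
(.n 6 8
(.l 1 [1,3,4,9,10] [] [(9,2),(10,5),(3,0),(1,6),(4,7),(6,8)])
(.n 0 1
(.l 1 [3,4,8,9,10] [] [(9,2),(10,5),(3,0),(0,1),(1,6),(4,7)])
(.n 1 2
(.n 0 2
(.n 3 4
(.l 5 [0,1,3,9,10] [(0,2),(1,6),(9,11),(10,5),(3,4),(4,7)] [])
(.l 5 [0,1,4,9,10] [(0,2),(1,6),(9,11),(10,5)] [(8,7),(4,3)]))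
(.n 3 4
(.l 1 [1,3,8,9,10] [] [(9,2),(2,0),(1,6),(10,5),(3,4),(4,7)])
(.l 5 [1,2,4,9,10] [(2,0),(1,6),(9,11),(10,5)] [(8,7),(4,3)])))
(.l 1 [3,4,8,9,10] [] [(9,2),(10,5),(3,0),(2,1),(1,6),(4,7)]))))
(.l 1 [1,3,8,9,10] [] [(9,2),(10,5),(5,4),(3,0),(1,6),(4,7)]))
(.l 1 [1,3,4,8,10] [] [(11,9),(9,2),(10,5),(3,0),(1,6),(4,7)]))
(.l 1 [1,4,8,9,10] [] [(9,2),(10,5),(5,3),(3,0),(1,6),(4,7)]))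
(.l 1 [1,3,4,8,9] [] [(11,10),(9,2),(10,5),(3,0),(1,6),(4,7)])))))
(.n 5 10
(.n 10 11
(.n 0 2
(.n 3 5
(.l 5 [0,3,4,6,9] [(3,5),(4,7),(5,10),(6,1),(0,2),(10,11)] [])
(.n 0 1
(.n 6 8
(.n 3 4
(.l 1 [0,3,5,6,9] [] [(3,4),(4,7),(5,10),(9,2),(0,1),(6,8)])
(.n 9 10
(.n 9 11
(.n 6 7
(.n 0 3
(.n 4 5
(.n 1 2
(.l 5 [0,1,4,6,9] [(1,2),(0,3),(6,7),(4,5),(5,10),(9,11)] [])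
(.l 5 [0,2,4,6,9] [(2,1),(0,3),(6,7),(4,5),(5,10),(9,11)] []))
(.n 1 2
(.l 1 [0,1,5,6,9] [] [(1,2),(0,3),(9,10),(5,4),(4,7),(6,8)])
(.l 1 [0,2,5,6,9] [] [(2,1),(0,3),(9,10),(5,4),(4,7),(6,8)])))
(.l 1 [2,4,5,6,9] [] [(9,10),(5,3),(3,0),(0,1),(4,7),(6,8)]))
(.l 5 [0,3,4,5,9] [(4,7),(5,10),(7,6),(6,1),(0,2),(9,11)] []))
(.l 1 [0,2,4,5,6] [] [(11,9),(9,10),(5,3),(0,1),(4,7),(6,8)]))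
(.l 1 [0,3,4,5,6] [] [(4,7),(5,10),(10,9),(9,2),(0,1),(6,8)])))
(.l 5 [0,3,4,5,9] [(4,7),(5,10),(10,11),(9,2),(0,1)] [(8,6)]))
(.l 5 [3,4,5,6,9] [(4,7),(5,10),(6,1),(10,11),(9,2),(1,0)] [])))
(.l 5 [3,4,5,6,9] [(4,7),(5,10),(6,1),(10,11),(9,2),(2,0)] []))
(.n 3 5
(.n 6 8
(.n 0 1
(.l 1 [0,3,4,6,9] [] [(3,5),(4,7),(5,10),(9,2),(0,1),(6,8)])
(.l 1 [1,3,4,6,9] [] [(11,10),(9,2),(1,0),(3,5),(4,7),(6,8)]))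
(.l 5 [0,3,4,9,11] [(3,5),(4,7),(5,10),(9,2)] [(8,6),(6,1)]))
(.n 0 1
(.n 6 8
(.l 1 [0,4,5,6,9] [] [(11,10),(5,3),(4,7),(9,2),(0,1),(6,8)])
(.l 5 [0,4,5,9,11] [(11,10),(5,3),(4,7),(9,2),(0,1)] [(8,6)]))
(.l 1 [4,5,6,8,9] [] [(11,10),(5,3),(4,7),(6,1),(9,2),(1,0)]))))
(.n 0 3
(.n 6 8
(.n 0 1
(.n 3 5
(.n 1 2
(.n 9 10
(.l 1 [0,1,4,6,9] [] [(1,2),(0,3),(3,5),(4,7),(6,8),(9,10)])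
(.l 1 [0,1,4,6,10] [] [(1,2),(0,3),(3,5),(4,7),(6,8),(10,9)]))
(.l 1 [0,4,6,9,10] [] [(9,2),(2,1),(0,3),(3,5),(4,7),(6,8)]))
(.l 1 [0,4,6,9,10] [] [(9,2),(10,5),(5,3),(0,1),(4,7),(6,8)]))
(.l 1 [1,4,6,9,10] [] [(9,2),(1,0),(0,3),(10,5),(4,7),(6,8)]))
(.n 9 11
(.n 1 2
(.l 5 [0,1,4,9,10] [(1,2),(0,3),(9,11),(10,5),(4,7)] [(8,6)])
(.l 5 [0,2,4,9,10] [(2,1),(0,3),(9,11),(10,5),(4,7)] [(8,6)]))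
(.l 5 [0,1,4,10,11] [(11,9),(9,2),(0,3),(10,5),(4,7)] [(8,6)])))
(.n 6 8
(.n 1 2
(.n 7 8
(.l 1 [3,4,6,9,10] [] [(9,2),(10,5),(3,0),(4,7),(7,8),(6,1)])
(.n 10 11
(.n 3 4
(.n 0 1
(.l 1 [0,3,6,9,10] [] [(9,2),(0,1),(10,5),(3,4),(4,7),(6,8)])
(.l 1 [1,3,6,9,10] [] [(9,2),(1,0),(10,5),(3,4),(4,7),(6,8)]))
(.l 5 [4,5,6,9,10] [(10,11),(9,2)] [(8,7),(4,3),(3,0),(6,1)]))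
(.l 1 [1,3,4,6,9] [] [(11,10),(9,2),(10,5),(3,0),(4,7),(6,8)])))
(.l 1 [3,4,6,9,10] [] [(9,2),(10,5),(3,0),(2,1),(4,7),(6,8)]))
(.l 5 [3,4,9,10,11] [(9,2),(10,5),(3,0),(4,7)] [(8,6),(6,1)])))))
(.n 1 6
(.n 3 5
(.n 10 11
(.n 0 2
(.n 5 10
(.l 5 [0,1,3,7,9] [(0,2),(1,6),(7,4),(3,5),(5,10),(10,11)] [])
(.n 9 11
(.n 7 8
(.n 0 3
(.n 6 8
(.l 1 [0,1,7,9,10] [] [(9,2),(0,3),(1,6),(6,8),(7,4),(3,5)])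
(.n 0 1
(.n 3 4
(.l 1 [0,1,7,9,10] [] [(9,2),(0,3),(1,6),(10,5),(3,4),(7,8)])
(.l 1 [0,4,7,9,10] [] [(9,2),(10,5),(4,3),(0,1),(1,6),(7,8)]))
(.l 5 [1,2,7,9,10] [(9,11),(10,5)] [(8,6),(1,0),(0,3),(7,4)])))
(.n 4 5
(.n 9 10
(.l 1 [1,3,4,7,9] [] [(4,5),(3,0),(0,2),(1,6),(7,8),(9,10)])
(.l 1 [1,3,4,7,10] [] [(4,5),(3,0),(0,2),(1,6),(7,8),(10,9)]))
(.l 1 [1,3,7,9,10] [] [(9,2),(10,5),(5,4),(3,0),(1,6),(7,8)])))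
(.l 5 [0,1,3,9,10] [(0,2),(1,6),(9,11),(10,5)] [(8,7),(7,4)]))
(.n 7 8
(.n 0 3
(.l 1 [0,1,4,7,10] [] [(11,9),(9,2),(0,3),(1,6),(3,5),(7,8)])
(.l 1 [1,3,4,7,10] [] [(11,9),(9,2),(10,5),(3,0),(1,6),(7,8)]))
(.l 5 [0,1,3,10,11] [(0,2),(1,6),(11,9),(10,5)] [(8,7),(7,4)]))))
(.n 5 10
(.l 5 [1,2,3,7,9] [(2,0),(1,6),(7,4),(3,5),(5,10),(10,11)] [])
(.n 7 8
(.n 3 4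
(.l 1 [1,3,7,9,10] [] [(9,2),(2,0),(1,6),(10,5),(3,4),(7,8)])
(.l 1 [1,4,7,9,10] [] [(9,2),(2,0),(1,6),(7,8),(10,5),(4,3)]))
(.l 5 [1,3,5,9,10] [(10,11),(9,2),(2,0),(1,6)] [(8,7),(7,4)]))))
(.n 6 8
(.l 1 [0,1,3,7,9] [] [(11,10),(9,2),(1,6),(6,8),(7,4),(3,5)])
(.n 0 1
(.l 1 [0,3,7,8,9] [] [(11,10),(9,2),(0,1),(1,6),(7,4),(3,5)])
(.l 5 [1,3,7,9,11] [(11,10),(9,2)] [(8,6),(1,0),(7,4),(3,5)]))))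
(.n 10 11
(.n 0 2
(.n 6 7
(.l 5 [0,1,5,9,10] [(10,11),(9,2),(1,6),(6,7),(7,4),(5,3)] [])
(.n 7 8
(.n 1 2
(.n 6 8
(.n 9 10
(.n 5 10
(.n 0 3
(.n 4 5
(.l 1 [0,1,2,7,9] [] [(0,3),(1,6),(6,8),(7,4),(4,5),(5,10)])
(.n 3 4
(.n 0 1
(.l 1 [0,3,5,7,9] [] [(3,4),(5,10),(9,2),(0,1),(1,6),(6,8)])
(.l 5 [1,3,5,7,9] [(3,4),(5,10),(7,6),(10,11),(9,2),(1,0)] []))
(.n 0 1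
(.l 1 [0,4,5,7,9] [] [(4,3),(5,10),(9,2),(0,1),(1,6),(6,8)])
(.l 1 [1,5,6,7,9] [] [(6,8),(7,4),(4,3),(5,10),(9,2),(1,0)]))))
(.l 1 [0,1,5,7,9] [] [(0,2),(1,6),(6,8),(7,4),(9,10),(5,3)]))
(.l 1 [0,1,2,7,9] [] [(1,6),(6,8),(7,4),(9,10),(10,5),(5,3)]))
(.l 1 [0,1,5,7,10] [] [(10,9),(9,2),(1,6),(6,8),(7,4),(5,3)]))
(.n 0 1
(.l 5 [0,5,7,9,10] [(10,11),(9,2)] [(8,6),(7,4),(5,3),(0,1)])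
(.l 5 [1,5,7,9,10] [(10,11),(9,2)] [(8,6),(1,0),(7,4),(5,3)])))
(.l 5 [0,5,7,9,10] [(10,11),(9,2),(2,1),(1,6),(7,4),(5,3)] []))
(.l 5 [0,1,5,9,10] [(10,11),(9,2),(1,6)] [(8,7),(7,4),(5,3)])))
(.l 5 [1,5,7,9,10] [(10,11),(9,2),(2,0),(1,6),(7,4),(5,3)] []))
(.n 7 8
(.n 0 3
(.n 4 5
(.l 1 [0,1,4,7,9] [] [(11,10),(9,2),(0,3),(1,6),(4,5),(7,8)])
(.l 1 [0,1,5,7,9] [] [(11,10),(9,2),(0,3),(1,6),(5,4),(7,8)]))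
(.l 1 [1,4,5,7,9] [] [(11,10),(5,3),(3,0),(9,2),(1,6),(7,8)]))
(.l 5 [0,1,5,9,11] [(11,10),(9,2),(1,6)] [(8,7),(7,4),(5,3)]))))
(.n 5 10
(.n 0 3
(.n 10 11
(.n 3 4
(.n 1 2
(.l 5 [0,5,6,7,9] [(6,1),(1,2),(0,3),(3,4),(5,10),(10,11)] [])
(.n 6 7
(.l 5 [0,2,5,6,9] [(2,1),(0,3),(3,4),(5,10),(6,7),(10,11)] [])
(.l 5 [0,2,5,7,9] [(2,1),(0,3),(3,4),(5,10),(7,6),(10,11)] [])))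
(.l 5 [0,5,6,7,9] [(6,1),(7,4),(4,3),(5,10),(10,11),(9,2)] []))
(.n 6 8
(.n 4 5
(.l 1 [0,1,6,7,9] [] [(6,8),(7,4),(11,10),(9,2),(0,3),(4,5)])
(.n 1 2
(.n 9 11
(.l 5 [0,5,6,7,9] [(6,1),(1,2),(0,3),(7,4),(5,10),(9,11)] [])
(.l 1 [0,1,5,6,7] [] [(1,2),(0,3),(6,8),(7,4),(5,10),(11,9)]))
(.l 1 [0,5,6,7,9] [] [(11,10),(9,2),(2,1),(0,3),(5,4),(6,8)])))
(.l 5 [0,5,7,9,11] [(11,10),(9,2)] [(8,6),(6,1),(0,3),(7,4)])))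
(.n 6 8
(.n 9 11
(.n 1 2
(.l 5 [3,5,6,7,9] [(6,1),(7,4),(3,0),(1,2),(5,10),(9,11)] [])
(.n 10 11
(.l 5 [3,5,6,7,9] [(6,1),(7,4),(3,0),(5,10),(10,11),(9,2)] [])
(.n 4 5
(.l 1 [0,3,6,7,9] [] [(11,10),(9,2),(2,1),(6,8),(7,4),(4,5)])
(.l 1 [3,5,6,7,9] [] [(11,10),(5,4),(3,0),(9,2),(2,1),(6,8)]))))
(.l 1 [1,3,5,6,7] [] [(6,8),(7,4),(3,0),(5,10),(11,9),(9,2)]))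
(.l 5 [3,5,7,9,11] [] [(8,6),(6,1),(7,4),(3,0),(5,10),(9,2)])))
(.n 0 3
(.n 9 11
(.n 6 8
(.n 1 2
(.l 5 [0,6,7,9,10] [(6,1),(1,2),(0,3),(7,4),(9,11),(10,5)] [])
(.l 1 [0,6,7,9,10] [] [(9,2),(2,1),(0,3),(6,8),(7,4),(10,5)]))
(.l 5 [0,2,7,9,10] [(9,11),(10,5)] [(8,6),(6,1),(0,3),(7,4)]))
(.l 1 [0,6,7,8,10] [] [(6,1),(7,4),(11,9),(9,2),(0,3),(10,5)]))
(.n 10 11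
(.n 7 8
(.n 4 5
(.l 5 [3,6,7,9,10] [(6,1),(7,4),(4,5),(3,0),(10,11),(9,2)] [])
(.l 1 [3,6,7,9,10] [] [(9,2),(10,5),(5,4),(3,0),(7,8),(6,1)]))
(.l 5 [3,5,6,9,10] [(10,11),(9,2)] [(8,7),(6,1),(7,4),(3,0)]))
(.l 1 [3,6,7,8,9] [] [(6,1),(7,4),(11,10),(9,2),(10,5),(3,0)])))))))

theorem factA {D : ℕ → ℕ → Prop} (hD : Ori D) : Holds D specP2 ∨ Holds D specQ1 :=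
  check_spec hD 0 specP2 specQ1 treeA [] (by simp) (by decide +kernel)

theorem factB {D : ℕ → ℕ → Prop} (hD : Ori D) : Holds D specQ2 := by
  have h := check_spec hD 3 specQ2 specQ2 treeB [] (by simp) (by decide +kernel)
  exact h.elim id id

theorem factC {D : ℕ → ℕ → Prop} (hD : Ori D) : Holds D specR0 := by
  have h := check_spec hD 4 specR0 specR0 treeC [] (by simp) (by decide +kernel)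
  exact h.elim id id

theorem factD {D : ℕ → ℕ → Prop} (hD : Ori D) : Holds D specP1 ∨ Holds D specRa :=
  check_spec hD 1 specP1 specRa treeD [] (by simp) (by decide +kernel)

end Pool.Agent.H17.OZF
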