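import Pool.Agent.H17.OZF.Defs
import Pool.Agent.H17.OZF.Trees

/-!
The graph on 23 vertices: two copies of the half graph that share their vertex `8`, with an
extra edge between the two copies of the vertex `11`. Every orientation has a forcing set of
size at most 11.
-/

namespace Pool.Agent.H17.OZF

theorem nbr_lt {u v : ℕ} (h : v ∈ nbr u) : u < 12 ∧ v < 12 := by
  by_cases hu : u < 12
  · refine ⟨hu, ?_⟩
    interval_cases u <;> simp [nbr] at h <;> omega
  · exfalso
    obtain ⟨k, rfl⟩ : ∃ k, u = k + 12 := ⟨u - 12, by omega⟩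
    simp [nbr] at h

theorem nbr_symm {u v : ℕ} (h : v ∈ nbr u) : u ∈ nbr v := by
  have h1 := nbr_lt h
  obtain ⟨hu, hv⟩ := h1
  revert h
  have key : ∀ u < 12, ∀ v < 12, v ∈ nbr u → u ∈ nbr v := by decide
  exact key u hu v hv

/-- Adjacency lists of the graph on 23 vertices. -/
def tab23 : List (List (Fin 23)) :=
  [[1, 2, 3], [0, 2, 6], [0, 1, 9], [4, 5, 0], [3, 5, 7], [3, 4, 10], [7, 8, 1], [6, 8, 4],
   [6, 7, 18, 19], [10, 11, 2], [9, 11, 5], [9, 10, 22], [13, 14, 15], [12, 14, 18],
   [12, 13, 20], [16, 17, 12], [15, 17, 19], [15, 16, 21], [19, 8, 13], [18, 8, 16],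
   [21, 22, 14], [20, 22, 17], [20, 21, 11]]

/-- Neighbours in the graph on 23 vertices. -/
def nb23 (x : Fin 23) : List (Fin 23) := tab23.getD x.val []

/-- The graph. -/
def G23 : SimpleGraph (Fin 23) where
  Adj x y := y ∈ nb23 x
  symm := by
    have h : ∀ x y : Fin 23, y ∈ nb23 x → x ∈ nb23 y := by decide
    exact ⟨fun x y => h x y⟩
  loopless := by
    have h : ∀ x : Fin 23, ¬ x ∈ nb23 x := by decide
    exact ⟨h⟩

instance : DecidableRel G23.Adj := fun x y => inferInstanceAs (Decidable (y ∈ nb23 x))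

/-- First copy. -/
def phi (i : ℕ) : Fin 23 := Fin.ofNat 23 i

/-- Second copy. -/
def psi (i : ℕ) : Fin 23 :=
  if i = 8 then 8 else if i < 8 then Fin.ofNat 23 (12 + i) else Fin.ofNat 23 (11 + i)

/-- Facts about the position of two copies of the half graph. -/
structure Copies (f g : ℕ → Fin 23) : Prop where
  adj : ∀ u < 12, ∀ v ∈ nbr u, G23.Adj (f u) (f v)
  outer : ∀ u < 12, ∀ w, G23.Adj (f u) w → (∃ v ∈ nbr u, f v = w) ∨
    (u = 8 ∧ ∃ v ∈ nbr 8, g v = w) ∨ (u = 11 ∧ w = g 11)

theorem copies1 : Copies phi psi := ⟨by decide, by decide⟩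

theorem copies2 : Copies psi phi := ⟨by decide, by decide⟩

theorem cover : ∀ w : Fin 23, (∃ v < 12, phi v = w) ∨ ∃ v < 12, psi v = w := by decide

/-- The orientation of the half graph induced by a copy. -/
def pull (D : Fin 23 → Fin 23 → Prop) (f : ℕ → Fin 23) (u v : ℕ) : Prop :=
  v ∈ nbr u ∧ D (f u) (f v)

theorem pull_ori {D : Fin 23 → Fin 23 → Prop} (hD : IsOrientation G23 D) {f g : ℕ → Fin 23}
    (hf : Copies f g) : Ori (pull D f) where
  adj _ _ h := h.1
  tot u v h := by
    have h1 := hf.adj u (nbr_lt h).1 v h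
    rcases hD.2 _ _ h1 with h2 | h2
    · exact Or.inl ⟨h, h2.1⟩
    · exact Or.inr ⟨nbr_symm h, h2.1⟩
  asym u v h h' := by
    have h1 := hD.1 _ _ h.2
    rcases hD.2 _ _ h1 with h2 | h2
    · exact h2.2 h'.2
    · exact h2.2 h.2

/-- Transfer of partial processes to the whole graph. -/
theorem transfer {D : Fin 23 → Fin 23 → Prop} {f : ℕ → Fin 23} {Col : Set (Fin 23)}
    (hcl : ∀ u v, u ∈ Col → D u v → (∀ w, D u w → w ≠ v → w ∈ Col) → v ∈ Col)
    {nf B : List ℕ} (hB : ∀ b ∈ B, f b ∈ Col)
    (hout : ∀ u < 12, u ∉ nf → ∀ w, D (f u) w → (∃ v ∈ nbr u, f v = w) ∨ w ∈ Col)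
    {v : ℕ} (hv : ColNF (pull D f) nf B v) : f v ∈ Col := by
  induction hv with
  | base v hv => exact hB v hv
  | force u v _ hnf huv _ ihu ihall =>
    refine hcl (f u) (f v) ihu huv.2 ?_
    intro w hw hne
    rcases hout u (nbr_lt huv.1).1 hnf w hw with ⟨v', hv', rfl⟩ | h
    · refine ihall v' ⟨hv', hw⟩ ?_
      rintro rfl
      exact hne rfl
    · exact h

theorem final_empty {V : Type*} (D : V → V → Prop) : finalColouring D ∅ = ∅ := by
  have h : ∀ k, (colourStep D)^[k] (∅ : Set V) = ∅ := by
    intro k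
    induction k with
    | zero => rfl
    | succ n ih =>
      rw [Function.iterate_succ_apply', ih]
      ext v
      simp [colourStep]
  simp [finalColouring, h]

/-- The set built from the two lists. -/
def mkSet (f g : ℕ → Fin 23) (BL BR : List ℕ) : Finset (Fin 23) :=
  (BL.map f ++ BR.map g).toFinset

theorem mkSet_card (f g : ℕ → Fin 23) (BL BR : List ℕ) :
    (mkSet f g BL BR).card ≤ BL.length + BR.length := by
  have h := List.toFinset_card_le (BL.map f ++ BR.map g)
  simpa [mkSet] using h

theorem main_dir {D : Fin 23 → Fin 23 → Prop} (hD : IsOrientation G23 D) {f g : ℕ → Fin 23}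
    (hfg : Copies f g) (hgf : Copies g f)
    (hcov : ∀ w : Fin 23, (∃ v < 12, f v = w) ∨ ∃ v < 12, g v = w)
    (hc : f 8 = g 8) (harc : D (f 11) (g 11)) :
    ∃ S : Finset (Fin 23), S.card ≤ 11 ∧ ∀ v, v ∈ finalColouring D (S : Set (Fin 23)) := by
  have hL := pull_ori hD hfg
  have hR := pull_ori hD hgf
  have hnarc : ¬ D (g 11) (f 11) := by
    rcases hD.2 _ _ (hD.1 _ _ harc) with h | h
    · exact h.2
    · exact absurd harc h.2
  -- the final assembly: it is enough to colour both copies
  have fin : ∀ BL BR : List ℕ, BL.length + BR.length ≤ 11 →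
      (∀ Col : Set (Fin 23),
        (∀ u v, u ∈ Col → D u v → (∀ w, D u w → w ≠ v → w ∈ Col) → v ∈ Col) →
        (∀ b ∈ BL, f b ∈ Col) → (∀ b ∈ BR, g b ∈ Col) →
        (∀ v < 12, f v ∈ Col) ∧ (∀ v < 12, g v ∈ Col)) →
      ∃ S : Finset (Fin 23), S.card ≤ 11 ∧ ∀ v, v ∈ finalColouring D (S : Set (Fin 23)) := by
    intro BL BR hlen h
    refine ⟨mkSet f g BL BR, (mkSet_card f g BL BR).trans hlen, ?_⟩
    have h1 := h (finalColouring D (mkSet f g BL BR : Set (Fin 23)))
      (fun u v => final_closed D _ u v)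
      (fun b hb => subset_final D _ (by
        simp only [mkSet, List.coe_toFinset, Set.mem_ofPred_eq, List.mem_append, List.mem_map]
        exact Or.inl ⟨b, hb, rfl⟩))
      (fun b hb => subset_final D _ (by
        simp only [mkSet, List.coe_toFinset, Set.mem_ofPred_eq, List.mem_append, List.mem_map]
        exact Or.inr ⟨b, hb, rfl⟩))
    intro v
    rcases hcov v with ⟨w, hw, rfl⟩ | ⟨w, hw, rfl⟩
    · exact h1.1 w hw
    · exact h1.2 w hw
  -- neighbours outside the two copies
  have outF : ∀ u < 12, ∀ w, D (f u) w → (∃ v ∈ nbr u, f v = w) ∨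
      (u = 8 ∧ ∃ v, pull D g 8 v ∧ g v = w) ∨ (u = 11 ∧ w = g 11) := by
    intro u hu w hw
    rcases hfg.outer u hu w (hD.1 _ _ hw) with h | ⟨rfl, v, hv, rfl⟩ | h
    · exact Or.inl h
    · exact Or.inr (Or.inl ⟨rfl, v, ⟨hv, hc ▸ hw⟩, rfl⟩)
    · exact Or.inr (Or.inr h)
  have outG : ∀ u < 12, ∀ w, D (g u) w → (∃ v ∈ nbr u, g v = w) ∨
      (u = 8 ∧ ∃ v, pull D f 8 v ∧ f v = w) := by
    intro u hu w hw
    rcases hgf.outer u hu w (hD.1 _ _ hw) with h | ⟨rfl, v, hv, rfl⟩ | ⟨rfl, rfl⟩
    · exact Or.inl h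
    · exact Or.inr ⟨rfl, v, ⟨hv, hc ▸ hw⟩, rfl⟩
    · exact absurd hw hnarc
  rcases factA hL with hA | hA
  · -- first strategy
    obtain ⟨BL, hBL, -, -, hLall⟩ := hA
    obtain ⟨BR, hBR, hR8, hRout, hRall⟩ := factC hR
    refine fin BL BR (by simp only [specP2, specR0] at hBL hBR; omega) ?_
    intro Col hcl hSf hSg
    have s1 : ∀ v, ColNF (pull D g) [8] ([] ++ BR) v → g v ∈ Col := by
      intro v hv
      refine transfer hcl (by simpa using hSg) ?_ hv
      intro u hu hnf w hw
      rcases outG u hu w hw with h | ⟨rfl, -⟩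
      · exact Or.inl h
      · exact absurd (List.mem_singleton.2 rfl) hnf
    have s1c : g 8 ∈ Col := s1 8 (hR8 8 (by simp [specR0]))
    have s1o : ∀ w, pull D g 8 w → g w ∈ Col := fun w hw =>
      s1 w (hRout rfl 8 (by simp [specR0]) w hw)
    have s2 : ∀ v < 12, f v ∈ Col := by
      intro v hv
      refine transfer (nf := [11]) (B := [8] ++ BL) hcl ?_ ?_ (hLall v hv)
      · intro b hb
        rcases List.mem_append.1 hb with hb | hb
        · rw [List.mem_singleton.1 hb, hc]; exact s1c
        · exact hSf b hb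
      · intro u hu hnf w hw
        rcases outF u hu w hw with h | ⟨rfl, v', hv', rfl⟩ | ⟨rfl, -⟩
        · exact Or.inl h
        · exact Or.inr (s1o v' hv')
        · exact absurd (List.mem_singleton.2 rfl) hnf
    have s3 : g 11 ∈ Col := by
      refine hcl (f 11) (g 11) (s2 11 (by norm_num)) harc ?_
      intro w hw hne
      rcases outF 11 (by norm_num) w hw with ⟨v', hv', rfl⟩ | ⟨h, -⟩ | ⟨-, h⟩
      · exact s2 v' (nbr_lt hv').2
      · norm_num at h
      · exact absurd h hne
    refine ⟨s2, ?_⟩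
    intro v hv
    refine transfer (nf := [8]) (B := [11] ++ BR) hcl ?_ ?_ (hRall v hv)
    · intro b hb
      rcases List.mem_append.1 hb with hb | hb
      · rw [List.mem_singleton.1 hb]; exact s3
      · exact hSg b hb
    · intro u hu hnf w hw
      rcases outG u hu w hw with h | ⟨rfl, -⟩
      · exact Or.inl h
      · exact absurd (List.mem_singleton.2 rfl) hnf
  · rcases factD hR with hB | hB
    · -- second strategy
      obtain ⟨BR, hBR, -, -, hRall⟩ := hB
      obtain ⟨BL, hBL, hL11, hLout, hLall⟩ := factB hL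
      refine fin BL BR (by simp only [specQ2, specP1] at hBL hBR; omega) ?_
      intro Col hcl hSf hSg
      have s1 : ∀ v, ColNF (pull D f) [8, 11] ([] ++ BL) v → f v ∈ Col := by
        intro v hv
        refine transfer hcl (by simpa using hSf) ?_ hv
        intro u hu hnf w hw
        rcases outF u hu w hw with h | ⟨rfl, -⟩ | ⟨rfl, -⟩
        · exact Or.inl h
        · exact absurd (by simp) hnf
        · exact absurd (by simp) hnf
      have s2 : g 11 ∈ Col := by
        refine hcl (f 11) (g 11) (s1 11 (hL11 11 (by simp [specQ2]))) harc ?_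
        intro w hw hne
        rcases outF 11 (by norm_num) w hw with ⟨v', hv', rfl⟩ | ⟨h, -⟩ | ⟨-, h⟩
        · exact s1 v' (hLout rfl 11 (by simp [specQ2]) v' ⟨hv', hw⟩)
        · norm_num at h
        · exact absurd h hne
      have s3 : ∀ v < 12, g v ∈ Col := by
        intro v hv
        refine transfer (nf := [8]) (B := [11] ++ BR) hcl ?_ ?_ (hRall v hv)
        · intro b hb
          rcases List.mem_append.1 hb with hb | hb
          · rw [List.mem_singleton.1 hb]; exact s2
          · exact hSg b hb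
        · intro u hu hnf w hw
          rcases outG u hu w hw with h | ⟨rfl, -⟩
          · exact Or.inl h
          · exact absurd (List.mem_singleton.2 rfl) hnf
      refine ⟨?_, s3⟩
      intro v hv
      refine transfer (nf := []) (B := [8] ++ BL) hcl ?_ ?_ (hLall v hv)
      · intro b hb
        rcases List.mem_append.1 hb with hb | hb
        · rw [List.mem_singleton.1 hb, hc]; exact s3 8 (by norm_num)
        · exact hSf b hb
      · intro u hu _ w hw
        rcases outF u hu w hw with h | ⟨rfl, v', hv', rfl⟩ | ⟨rfl, rfl⟩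
        · exact Or.inl h
        · exact Or.inr (s3 v' (nbr_lt hv'.1).2)
        · exact Or.inr s2
    · -- third strategy
      obtain ⟨BL, hBL, hL8, -, hLall⟩ := hA
      obtain ⟨BR, hBR, hR11, -, hRall⟩ := hB
      refine fin BL BR (by simp only [specQ1, specRa] at hBL hBR; omega) ?_
      intro Col hcl hSf hSg
      have s1 : f 8 ∈ Col := by
        refine transfer (nf := [8, 11]) (B := [] ++ BL) hcl (by simpa using hSf) ?_
          (hL8 8 (by simp [specQ1]))
        intro u hu hnf w hw
        rcases outF u hu w hw with h | ⟨rfl, -⟩ | ⟨rfl, -⟩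
        · exact Or.inl h
        · exact absurd (by simp) hnf
        · exact absurd (by simp) hnf
      have hB8 : ∀ b ∈ [8] ++ BR, g b ∈ Col := by
        intro b hb
        rcases List.mem_append.1 hb with hb | hb
        · rw [List.mem_singleton.1 hb, ← hc]; exact s1
        · exact hSg b hb
      have s2 : g 11 ∈ Col := by
        refine transfer (nf := [8]) (B := [8] ++ BR) hcl hB8 ?_ (hR11 11 (by simp [specRa]))
        intro u hu hnf w hw
        rcases outG u hu w hw with h | ⟨rfl, -⟩
        · exact Or.inl h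
        · exact absurd (List.mem_singleton.2 rfl) hnf
      have s3 : ∀ v < 12, f v ∈ Col := by
        intro v hv
        refine transfer (nf := [8]) (B := [] ++ BL) hcl (by simpa using hSf) ?_ (hLall v hv)
        intro u hu hnf w hw
        rcases outF u hu w hw with h | ⟨rfl, -⟩ | ⟨rfl, rfl⟩
        · exact Or.inl h
        · exact absurd (List.mem_singleton.2 rfl) hnf
        · exact Or.inr s2
      refine ⟨s3, ?_⟩
      intro v hv
      refine transfer (nf := []) (B := [8] ++ BR) hcl hB8 ?_ (hRall v hv)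
      intro u hu _ w hw
      rcases outG u hu w hw with h | ⟨rfl, v', hv', rfl⟩
      · exact Or.inl h
      · exact Or.inr (s3 v' (nbr_lt hv'.1).2)

/-- Every orientation of the graph has a set of at most 11 vertices that forces everything. -/
theorem exists_set (D : Fin 23 → Fin 23 → Prop) (hD : IsOrientation G23 D) :
    ∃ S : Finset (Fin 23), S.card ≤ 11 ∧
      ∀ v, v ∈ finalColouring D (S : Set (Fin 23)) := by
  have hadj : G23.Adj (phi 11) (psi 11) := by decide
  rcases hD.2 _ _ hadj with h | h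
  · exact main_dir hD copies1 copies2 cover (by decide) h.1
  · exact main_dir hD copies2 copies1 (fun w => (cover w).symm) (by decide) h.1

/-- Parents in a spanning tree. -/
def par23 (x : Fin 23) : Fin 23 :=
  ([0, 0, 0, 0, 3, 3, 1, 4, 6, 2, 9, 9, 13, 18, 13, 16, 19, 16, 8, 8, 14, 17, 11] :
    List (Fin 23)).getD x.val 0

/-- The graph is connected. -/
theorem G23_connected : G23.Connected := by
  have h1 : ∀ x : Fin 23, x = par23 x ∨ G23.Adj x (par23 x) := by decide
  have h2 : ∀ x : Fin 23, par23^[9] x = 0 := by decide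
  have h3 : ∀ k : ℕ, ∀ x : Fin 23, G23.Reachable x (par23^[k] x) := by
    intro k
    induction k with
    | zero => intro x; exact SimpleGraph.Reachable.refl x
    | succ n ih =>
      intro x
      rw [Function.iterate_succ_apply]
      rcases h1 x with h | h
      · rw [← h]; exact ih x
      · exact h.reachable.trans (ih (par23 x))
  have h4 : ∀ x : Fin 23, G23.Reachable x 0 := by
    intro x
    have h5 := h3 9 x
    rwa [h2 x] at h5
  have : Nonempty (Fin 23) := ⟨0⟩
  exact ⟨fun x y => (h4 x).trans (h4 y).symm⟩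

end Pool.Agent.H17.OZF
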