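import Mathlib

/-!
The half graph on `0, ..., 11`: a truncated `K_4` minus an edge. A certificate checker for
statements about partial colour change processes in all its orientations.
-/

namespace Pool.Agent.H17.OZF

/-- Neighbours in the half graph. -/
def nbr : ℕ → List ℕ
  | 0 => [1, 2, 3]
  | 1 => [0, 2, 6]
  | 2 => [0, 1, 9]
  | 3 => [4, 5, 0]
  | 4 => [3, 5, 7]
  | 5 => [3, 4, 10]
  | 6 => [7, 8, 1]
  | 7 => [6, 8, 4]
  | 8 => [6, 7]
  | 9 => [10, 11, 2]
  | 10 => [9, 11, 5]
  | 11 => [9, 10]
  | _ => []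

/-- Vertices coloured from `B` when the vertices in `nf` are not allowed to force. -/
inductive ColNF (D : ℕ → ℕ → Prop) (nf B : List ℕ) : ℕ → Prop
  | base (v : ℕ) : v ∈ B → ColNF D nf B v
  | force (u v : ℕ) : ColNF D nf B u → u ∉ nf → D u v →
      (∀ w, D u w → w ≠ v → ColNF D nf B w) → ColNF D nf B v

/-- A kind of two-phase statement. -/
structure Spec where
  size : ℕ
  pre1 : List ℕ
  nf1 : List ℕ
  tgt : List ℕ
  out : Bool
  pre2 : List ℕ
  nf2 : List ℕ

/-- The two-phase statement for the orientation `D`. -/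
def Holds (D : ℕ → ℕ → Prop) (s : Spec) : Prop :=
  ∃ B : List ℕ, B.length ≤ s.size ∧
    (∀ t ∈ s.tgt, ColNF D s.nf1 (s.pre1 ++ B) t) ∧
    (s.out = true → ∀ t ∈ s.tgt, ∀ w, D t w → ColNF D s.nf1 (s.pre1 ++ B) w) ∧
    (∀ v < 12, ColNF D s.nf2 (s.pre2 ++ B) v)

/-- Orientations of the half graph. -/
structure Ori (D : ℕ → ℕ → Prop) : Prop where
  adj : ∀ u v, D u v → v ∈ nbr u
  tot : ∀ u v, v ∈ nbr u → D u v ∨ D v u
  asym : ∀ u v, D u v → ¬ D v u

def memN (x : ℕ) : List ℕ → Bool
  | [] => false
  | a :: t => Nat.beq a x || memN x t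

def memP (x y : ℕ) : List (ℕ × ℕ) → Bool
  | [] => false
  | (a, b) :: t => (Nat.beq a x && Nat.beq b y) || memP x y t

theorem memN_iff (x : ℕ) (l : List ℕ) : memN x l = true ↔ x ∈ l := by
  induction l with
  | nil => simp [memN]
  | cons a t ih =>
    rw [memN, Bool.or_eq_true, ih, Nat.beq_eq, List.mem_cons]
    exact or_congr_left ⟨fun h => h.symm, fun h => h.symm⟩

theorem memP_iff (x y : ℕ) (l : List (ℕ × ℕ)) : memP x y l = true ↔ (x, y) ∈ l := by
  induction l with
  | nil => simp [memP]
  | cons a t ih =>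
    obtain ⟨a, b⟩ := a
    rw [memP, Bool.or_eq_true, Bool.and_eq_true, ih, Nat.beq_eq, Nat.beq_eq, List.mem_cons,
      Prod.mk.injEq]
    exact or_congr_left ⟨fun h => ⟨h.1.symm, h.2.symm⟩, fun h => ⟨h.1.symm, h.2.symm⟩⟩

/-- All neighbours of `u` are coloured, equal to `v`, or known to be in-neighbours. -/
def okN (k : List (ℕ × ℕ)) (C : List ℕ) (u v : ℕ) : List ℕ → Bool
  | [] => true
  | w :: t => (Nat.beq w v || memN w C || memP w u k) && okN k C u v t

theorem okN_spec (k : List (ℕ × ℕ)) (C : List ℕ) (u v : ℕ) (l : List ℕ)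
    (h : okN k C u v l = true) : ∀ w ∈ l, w = v ∨ w ∈ C ∨ (w, u) ∈ k := by
  induction l with
  | nil => simp
  | cons a t ih =>
    simp only [okN, Bool.and_eq_true, Bool.or_eq_true, memN_iff, memP_iff, Nat.beq_eq] at h
    intro w hw
    rcases List.mem_cons.1 hw with rfl | hw
    · rcases h.1 with (h1 | h1) | h1
      · exact Or.inl h1
      · exact Or.inr (Or.inl h1)
      · exact Or.inr (Or.inr h1)
    · exact ih h.2 w hw

/-- Run a script of forces from the coloured list `C`. -/
def run (k : List (ℕ × ℕ)) (nf : List ℕ) : List (ℕ × ℕ) → List ℕ → Option (List ℕ)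
  | [], C => some C
  | (u, v) :: s, C =>
    match memN u C && !(memN u nf) && memP u v k && okN k C u v (nbr u) with
    | true => run k nf s (v :: C)
    | false => none

theorem run_spec {D : ℕ → ℕ → Prop} (hD : Ori D) (k : List (ℕ × ℕ)) (hk : ∀ p ∈ k, D p.1 p.2)
    (nf B : List ℕ) (s : List (ℕ × ℕ)) :
    ∀ C C', run k nf s C = some C' → (∀ a ∈ C, ColNF D nf B a) → ∀ a ∈ C', ColNF D nf B a := by
  induction s with
  | nil =>
    intro C C' h hC
    simp only [run, Option.some.injEq] at h
    exact h ▸ hC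
  | cons p s ih =>
    obtain ⟨u, v⟩ := p
    intro C C' h hC
    cases hb : memN u C && !(memN u nf) && memP u v k && okN k C u v (nbr u) with
    | false => simp [run, hb] at h
    | true =>
      simp only [run, hb] at h
      simp only [Bool.and_eq_true, Bool.not_eq_true', memN_iff, memP_iff] at hb
      obtain ⟨⟨⟨h1, h2⟩, h3⟩, h4⟩ := hb
      have h2' : u ∉ nf := by
        intro hu
        rw [(memN_iff u nf).2 hu] at h2
        exact absurd h2 (by simp)
      refine ih (v :: C) C' h ?_
      intro a ha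
      rcases List.mem_cons.1 ha with rfl | ha
      · refine ColNF.force u a (hC u h1) h2' (hk _ h3) ?_
        intro w hw hne
        rcases okN_spec k C u a _ h4 w (hD.adj u w hw) with h5 | h5 | h5
        · exact absurd h5 hne
        · exact hC w h5
        · exact absurd hw (hD.asym w u (hk _ h5))
      · exact hC a ha

def allB (f : ℕ → Bool) : List ℕ → Bool
  | [] => true
  | a :: t => f a && allB f t

theorem allB_spec (f : ℕ → Bool) (l : List ℕ) (h : allB f l = true) : ∀ a ∈ l, f a = true := by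
  induction l with
  | nil => simp
  | cons a t ih =>
    simp only [allB, Bool.and_eq_true] at h
    intro b hb
    rcases List.mem_cons.1 hb with rfl | hb
    · exact h.1
    · exact ih h.2 b hb

/-- The check at a leaf. -/
def leafCheck (k : List (ℕ × ℕ)) (s : Spec) (B : List ℕ) (s1 s2 : List (ℕ × ℕ)) : Bool :=
  Nat.ble B.length s.size &&
  (match run k s.nf1 s1 (s.pre1 ++ B) with
    | none => false
    | some C => allB (fun t => memN t C) s.tgt &&
        (!s.out || allB (fun t => allB (fun w => memN w C || memP w t k) (nbr t)) s.tgt)) &&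
  (match run k s.nf2 (s1 ++ s2) (s.pre2 ++ B) with
    | none => false
    | some C => allB (fun t => memN t C) [0, 1, 2, 3, 4, 5, 6, 7, 8, 9, 10, 11])

theorem leafCheck_spec {D : ℕ → ℕ → Prop} (hD : Ori D) (k : List (ℕ × ℕ))
    (hk : ∀ p ∈ k, D p.1 p.2) (s : Spec) (B : List ℕ) (s1 s2 : List (ℕ × ℕ))
    (h : leafCheck k s B s1 s2 = true) : Holds D s := by
  simp only [leafCheck, Bool.and_eq_true] at h
  obtain ⟨⟨h0, h1⟩, h2⟩ := h
  have h0' : B.length ≤ s.size := Nat.le_of_ble_eq_true h0
  refine ⟨B, h0', ?_, ?_, ?_⟩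
  · cases hr : run k s.nf1 s1 (s.pre1 ++ B) with
    | none => simp [hr] at h1
    | some C =>
      simp only [hr, Bool.and_eq_true] at h1
      intro t ht
      have := allB_spec _ _ h1.1 t ht
      exact run_spec hD k hk s.nf1 (s.pre1 ++ B) s1 _ _ hr (fun a ha => ColNF.base a ha) t
        ((memN_iff _ _).1 this)
  · intro ho t ht w hw
    cases hr : run k s.nf1 s1 (s.pre1 ++ B) with
    | none => simp [hr] at h1
    | some C =>
      simp only [hr, Bool.and_eq_true, ho, Bool.not_true, Bool.false_or] at h1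
      have h3 := allB_spec _ _ h1.2 t ht
      have h4 := allB_spec _ _ h3 w (hD.adj t w hw)
      simp only [Bool.or_eq_true, memN_iff, memP_iff] at h4
      rcases h4 with h4 | h4
      · exact run_spec hD k hk s.nf1 (s.pre1 ++ B) s1 _ _ hr (fun a ha => ColNF.base a ha) w h4
      · exact absurd hw (hD.asym w t (hk _ h4))
  · intro v hv
    cases hr : run k s.nf2 (s1 ++ s2) (s.pre2 ++ B) with
    | none => simp [hr] at h2
    | some C =>
      simp only [hr] at h2
      have hmem : v ∈ [0, 1, 2, 3, 4, 5, 6, 7, 8, 9, 10, 11] := by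
        interval_cases v <;> simp
      have := allB_spec _ _ h2 v hmem
      exact run_spec hD k hk s.nf2 (s.pre2 ++ B) _ _ _ hr (fun a ha => ColNF.base a ha) v
        ((memN_iff _ _).1 this)

/-- Decision trees. -/
inductive Tr
  | l (i : ℕ) (B : List ℕ) (s1 s2 : List (ℕ × ℕ))
  | n (a b : ℕ) (x y : Tr)

/-- The kinds. -/
def specP2 : Spec := ⟨5, [], [], [], false, [8], [11]⟩
def specP1 : Spec := ⟨5, [], [], [], false, [11], [8]⟩
def specQ1 : Spec := ⟨6, [], [8, 11], [8], false, [], [8]⟩
def specQ2 : Spec := ⟨6, [], [8, 11], [11], true, [8], []⟩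
def specR0 : Spec := ⟨6, [], [8], [8], true, [11], [8]⟩
def specRa : Spec := ⟨5, [8], [8], [11], false, [8], []⟩

/-- The check of a decision tree against two kinds `s` (leaf label `i`) and `s'`. -/
def check (i : ℕ) (s s' : Spec) : List (ℕ × ℕ) → Tr → Bool
  | k, .l j B s1 s2 => (match Nat.beq i j with
      | true => leafCheck k s B s1 s2
      | false => leafCheck k s' B s1 s2)
  | k, .n a b x y => memN b (nbr a) && check i s s' ((a, b) :: k) x &&
      check i s s' ((b, a) :: k) y

theorem check_spec {D : ℕ → ℕ → Prop} (hD : Ori D) (i : ℕ) (s s' : Spec) (t : Tr) :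
    ∀ k : List (ℕ × ℕ), (∀ p ∈ k, D p.1 p.2) → check i s s' k t = true →
      Holds D s ∨ Holds D s' := by
  induction t with
  | l j B s1 s2 =>
    intro k hk h
    simp only [check] at h
    cases hb : Nat.beq i j with
    | true =>
      rw [hb] at h
      exact Or.inl (leafCheck_spec hD k hk s B s1 s2 h)
    | false =>
      rw [hb] at h
      exact Or.inr (leafCheck_spec hD k hk s' B s1 s2 h)
  | n a b x y ihx ihy =>
    intro k hk h
    simp only [check, Bool.and_eq_true, memN_iff] at h
    obtain ⟨⟨h1, h2⟩, h3⟩ := h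
    rcases hD.tot a b h1 with hab | hab
    · refine ihx ((a, b) :: k) ?_ h2
      intro p hp
      rcases List.mem_cons.1 hp with rfl | hp
      · exact hab
      · exact hk p hp
    · refine ihy ((b, a) :: k) ?_ h3
      intro p hp
      rcases List.mem_cons.1 hp with rfl | hp
      · exact hab
      · exact hk p hp

end Pool.Agent.H17.OZF
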